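import Pool.Agent.H75.GG.Targets2

/-!
# Row HRD of the board on unfindable errors: the algorithms are rarely correct
-/

set_option autoImplicit false

namespace Pool.Agent.H35.GG

open Finset Filter Pool.Agent.H6.NB Pool.Agent.H70.OQ Pool.Agent.H75.GS Pool.Agent.H75.GG

theorem ic_le_one (p : Prop) : ic p ≤ 1 := by
  unfold ic
  split_ifs <;> norm_num

theorem ic_true {p : Prop} (h : p) : ic p = 1 := by
  unfold ic
  rw [if_pos h]

theorem ic_false {p : Prop} (h : ¬ p) : ic p = 0 := by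
  unfold ic
  rw [if_neg h]

/-- the members of the joined configuration -/
theorem jn_snd {G : Dat} {n : ℕ} (y : Spc G n) (p : Wn n) (x : Xn n) :
    (jn y univ p).2 x = true ↔ x = row y (G.lab n x) ∨ p.2 x = true := by
  classical
  have h1 : x ∈ univ.image (row y) ↔ x = row y (G.lab n x) := by
    rw [Finset.mem_image]
    constructor
    · rintro ⟨k, -, hk⟩
      have h2 : G.lab n x = k := by
        rw [← hk]
        exact (y k).1.2
      rw [h2, hk]
    · intro h
      exact ⟨_, Finset.mem_univ _, h.symm⟩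
  unfold jn jR
  simp only [h1]
  by_cases h : x = row y (G.lab n x)
  · rw [if_pos h]
    simp [← h]
  · rw [if_neg h]
    simp [h]

/-- the special rows are overwritten -/
theorem jn_rm {G : Dat} {n : ℕ} (y : Spc G n) (p : Wn n) : jn y univ (rm y p) = jn y univ p := by
  classical
  apply Prod.ext
  · rfl
  · funext x
    have h1 := jn_snd y (rm y p) x
    have h2 := jn_snd y p x
    have h3 : ((jn y univ (rm y p)).2 x = true) ↔ ((jn y univ p).2 x = true) := by
      rw [h1, h2]
      unfold rm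
      simp only
      by_cases h : x = row y (G.lab n x)
      · exact ⟨fun _ => Or.inl h, fun _ => Or.inl h⟩
      · rw [if_neg h]
    exact Bool.eq_iff_iff.2 h3

/-- the seed depends only on the joined configurations, the keys and the copies -/
theorem seed_congr {G : Dat} (ω ω' : Cfg G)
    (h1 : ∀ m, jn (cfS ω m) univ (cfT ω m) = jn (cfS ω' m) univ (cfT ω' m))
    (h2 : ∀ s, cfK ω s = cfK ω' s) (h3 : ∀ s, cfP ω s = cfP ω' s) : seed ω = seed ω' := by
  classical
  funext w
  unfold seed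
  by_cases c1 : ∃ c : Σ n : ℕ, Xn n × Ys n 0, G.n0 ≤ c.1 ∧ w = pst c.1 c.2.1 c.2.2
  · rw [dif_pos c1, dif_pos c1, h1]
  · rw [dif_neg c1, dif_neg c1]
    by_cases c2 : ∃ s, w = key s
    · rw [dif_pos c2, dif_pos c2, h2]
    · rw [dif_neg c2, dif_neg c2]
      by_cases c3 : ∃ c : Σ s : List Bool, Fin (ns s) × VV (qs s),
          w = blk c.1 c.2.1 c.2.2.1 (List.ofFn c.2.2.2)
      · rw [dif_pos c3, dif_pos c3, h3]
      · rw [dif_neg c3, dif_neg c3]

theorem wld_congr {G : Dat} (ω ω' : Cfg G) (h0 : ∀ m, cfS ω m = cfS ω' m)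
    (h1 : ∀ m, jn (cfS ω m) univ (cfT ω m) = jn (cfS ω' m) univ (cfT ω' m))
    (h2 : ∀ s, cfK ω s = cfK ω' s) (h3 : ∀ s, cfP ω s = cfP ω' s) : wld ω = wld ω' := by
  have h4 : Spt ω = Spt ω' := by
    funext l
    unfold Spt
    simp only [h0]
  unfold wld
  rw [seed_congr ω ω' h1 h2 h3, h4]

theorem cfS_self {G : Dat} (ω : Cfg G) (n : ℕ) (c : Wn n × Spc G n) :
    cfS (Function.update ω (.inl n) c) n = c.2 := by
  unfold cfS
  rw [Function.update_self]

theorem cfT_self {G : Dat} (ω : Cfg G) (n : ℕ) (c : Wn n × Spc G n) :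
    cfT (Function.update ω (.inl n) c) n = c.1 := by
  unfold cfT
  rw [Function.update_self]

theorem cf_ne {G : Dat} (ω : Cfg G) (n m : ℕ) (h : m ≠ n) (c : Wn n × Spc G n) :
    cfS (Function.update ω (.inl n) c) m = cfS ω m ∧
      cfT (Function.update ω (.inl n) c) m = cfT ω m := by
  unfold cfS cfT
  rw [Function.update_of_ne (by simpa using h)]
  exact ⟨rfl, rfl⟩

theorem cf_inr {G : Dat} (ω : Cfg G) (n : ℕ) (s : List Bool) (c : Wn n × Spc G n) :
    cfK (Function.update ω (.inl n) c) s = cfK ω s ∧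
      cfP (Function.update ω (.inl n) c) s = cfP ω s := by
  unfold cfK cfP
  rw [Function.update_of_ne (by simp)]
  exact ⟨rfl, rfl⟩

/-- the world does not change if the special rows are not members -/
theorem wld_rm {G : Dat} (ω : Cfg G) (n : ℕ) (p : Wn n) (y : Spc G n) :
    wld (Function.update ω (.inl n) ((p, y) : Wn n × Spc G n)) =
      wld (Function.update ω (.inl n) ((rm y p, y) : Wn n × Spc G n)) := by
  have h0 : ∀ m, cfS (Function.update ω (.inl n) ((p, y) : Wn n × Spc G n)) m =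
      cfS (Function.update ω (.inl n) ((rm y p, y) : Wn n × Spc G n)) m := by
    intro m
    by_cases hm : m = n
    · subst hm
      rw [cfS_self, cfS_self]
    · rw [(cf_ne ω n m hm _).1, (cf_ne ω n m hm _).1]
  apply wld_congr _ _ h0
  · intro m
    by_cases hm : m = n
    · subst hm
      rw [cfS_self, cfS_self, cfT_self, cfT_self]
      exact (jn_rm y p).symm
    · rw [(cf_ne ω n m hm _).1, (cf_ne ω n m hm _).1, (cf_ne ω n m hm _).2,
        (cf_ne ω n m hm _).2]
  · intro s
    rw [(cf_inr ω n s _).1, (cf_inr ω n s _).1]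
  · intro s
    rw [(cf_inr ω n s _).2, (cf_inr ω n s _).2]

/-- an algorithm with advice -/
theorem CoQ_of_BdA (hUNQ : T_UNQ) (hPCG : Pool.Agent.H6.NB.T_PCG) (G : Dat)
    (hloc : LocA G.acc) (ω : Cfg G) (n : ℕ) (hn : G.n0 ≤ n) (p : Wn n)
    (OT : List Bool → Bool) (y : Spc G n)
    (hOT : ∀ w : List Bool, w.length ≤ G.H n →
      wld (Function.update ω (.inl n) ((p, y) : Wn n × Spc G n)) w = OF OT y univ w)
    (Q : List Bool → QAlg) (hS : ∀ x : List Bool, x.length = n → (Q x).Short (G.H n))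
    (hc : ∀ x : List Bool, x.length = n →
      Correct (Q x) (wld (Function.update ω (.inl n) ((p, y) : Wn n × Spc G n)))
        (wlang (wld (Function.update ω (.inl n) ((p, y) : Wn n × Spc G n)))) x) :
    CoQ p.2 OT y fun x => Q (List.ofFn x) := by
  intro x hx
  set ω' : Cfg G := Function.update ω (.inl n) ((p, y) : Wn n × Spc G n) with hω'
  have hlen : (List.ofFn x).length = n := List.length_ofFn
  have hprob : (Q (List.ofFn x)).prob (wld ω') = (Q (List.ofFn x)).prob (OF OT y univ) := by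
    apply hPCG
    intro i w hw
    exact hOT w (hS _ hlen i w hw)
  have hmem : List.ofFn x ∈ wlang (wld ω') ↔ x = row y (G.lab n x) := by
    rw [(hUNQ G ω' hloc).2 n x hn, hω', cfS_self, cfT_self, jn_snd]
    simp [hx]
  obtain ⟨h1, h2⟩ := hc _ hlen
  rw [hprob, hmem] at h1 h2
  exact ⟨h1, h2⟩

theorem pf_HRD (hLO2 : T_LO2) (hMWR : T_MWR) (hAD3 : T_AD3) (hUNQ : T_UNQ)
    (hPCG : Pool.Agent.H6.NB.T_PCG) : T_HRD := by
  classical
  intro G K hOK J _ Q hQ n hn ω
  obtain ⟨hJ, τ, hτ, hθ, hSQ⟩ := hQ n hn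
  set r := G.r n with hr
  have hnr : n ≤ r := (hOK.rr n hn).1
  set φ : Wn n → Spc G n → ℝ := fun p y =>
    ic (BdA J Q n (Function.update ω (.inl n) ((p, y) : Wn n × Spc G n))) with hφ
  have hφ0 : ∀ p y, 0 ≤ φ p y := by
    intro p y
    simp only [hφ]
    unfold ic
    split_ifs <;> norm_num
  -- the sum over the cell
  have e1 : ∑ c : Val G (.inl n), wgt G (.inl n) c *
      ic (BdA J Q n (Function.update ω (.inl n) c)) =
      1 / ((Fintype.card (Wn n) : ℝ) * Fintype.card (Spc G n)) *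
        ∑ p : Wn n, ∑ y : Spc G n, φ p y := by
    have e2 : ∑ c : Val G (.inl n), wgt G (.inl n) c *
        ic (BdA J Q n (Function.update ω (.inl n) c)) =
        ∑ c : Wn n × Spc G n, 1 / (Fintype.card (Wn n × Spc G n) : ℝ) * φ c.1 c.2 := rfl
    rw [e2, ← Finset.mul_sum, Fintype.sum_prod_type, Fintype.card_prod, Nat.cast_mul]
  have e3 : ∑ p : Wn n, ∑ y : Spc G n, φ p y = ∑ p : Wn n, ∑ y : Spc G n, φ (rm y p) y := by
    refine Finset.sum_congr rfl fun p _ => Finset.sum_congr rfl fun y _ => ?_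
    simp only [hφ]
    have h1 := wld_rm ω n p y
    have h2 : BdA J Q n (Function.update ω (.inl n) ((p, y) : Wn n × Spc G n)) ↔
        BdA J Q n (Function.update ω (.inl n) ((rm y p, y) : Wn n × Spc G n)) := by
      unfold BdA
      rw [h1]
    rw [propext h2]
  have e4 := hLO2 G n φ
  -- one configuration
  have key : ∀ p : Wn n, ∑ y ∈ univ.filter (fun y : Spc G n => ∀ k, p.2 (row y k) = false),
      φ p y ≤ 2 ^ r * ((r + 1) * (1 / 16) ^ r * Fintype.card (Spc G n)) := by
    intro p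
    obtain ⟨OT, -, hOT⟩ := hMWR G ω n p hOK.loc hn (hOK.len n hn)
    have h1 := hAD3 G n p.2 OT (J n) (fun j x => Q n j (List.ofFn x)) τ (1 / 16) hOK.lab hτ
      (fun j x => (hSQ j _ List.length_ofFn).2) hθ
    have h2 : ∑ y ∈ univ.filter (fun y : Spc G n => ∀ k, p.2 (row y k) = false), φ p y ≤
        ((univ.filter fun y : Spc G n => (∀ k, p.2 (row y k) = false) ∧
          ∃ j, CoQ p.2 OT y fun x => Q n j (List.ofFn x)).card : ℝ) := by
      rw [← Finset.sum_boole, Finset.sum_filter]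
      apply Finset.sum_le_sum
      intro y _
      by_cases c1 : ∀ k, p.2 (row y k) = false
      · rw [if_pos c1]
        by_cases c2 : BdA J Q n (Function.update ω (.inl n) ((p, y) : Wn n × Spc G n))
        · obtain ⟨j, hj⟩ := id c2
          have h3 : CoQ p.2 OT y fun x => Q n j (List.ofFn x) :=
            CoQ_of_BdA hUNQ hPCG G hOK.loc ω n hn p OT y (hOT y c1) (Q n j)
              (fun x hx => (hSQ j x hx).1) hj
          rw [if_pos ⟨c1, j, h3⟩]
          exact ic_le_one _
        · simp only [hφ]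
          rw [ic_false c2]
          split_ifs <;> norm_num
      · rw [if_neg c1]
        split_ifs <;> norm_num
    refine h2.trans (h1.trans ?_)
    apply mul_le_mul_of_nonneg_right _ (by positivity)
    exact_mod_cast hJ
  have e5 : ∑ p : Wn n, ∑ y ∈ univ.filter (fun y : Spc G n => ∀ k, p.2 (row y k) = false),
      φ p y ≤ Fintype.card (Wn n) *
        (2 ^ r * ((r + 1) * (1 / 16) ^ r * Fintype.card (Spc G n))) := by
    refine (Finset.sum_le_sum fun p _ => key p).trans ?_
    rw [Finset.sum_const, nsmul_eq_mul, Finset.card_univ]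
  rw [e1, e3, e4]
  set Wc : ℝ := (Fintype.card (Wn n) : ℝ) with hWc
  set Sc : ℝ := (Fintype.card (Spc G n) : ℝ) with hSc
  have hW0 : 0 ≤ Wc := by positivity
  have hS0 : 0 ≤ Sc := by positivity
  have e6 : 1 / (Wc * Sc) * (2 ^ r * ∑ p : Wn n,
      ∑ y ∈ univ.filter (fun y : Spc G n => ∀ k, p.2 (row y k) = false), φ p y) ≤
      1 / (Wc * Sc) * (2 ^ r * (Wc * (2 ^ r * ((r + 1) * (1 / 16) ^ r * Sc)))) := by
    apply mul_le_mul_of_nonneg_left _ (by positivity)
    apply mul_le_mul_of_nonneg_left e5 (by positivity)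
  refine e6.trans ?_
  have e7 : 1 / (Wc * Sc) * (2 ^ r * (Wc * (2 ^ r * ((r + 1) * (1 / 16) ^ r * Sc)))) ≤
      (r + 1) / 4 ^ r := by
    have h16 : ((1 : ℝ) / 16) ^ r * (2 ^ r * 2 ^ r) = 1 / 4 ^ r := by
      rw [← mul_pow, ← mul_pow, ← one_div_pow]
      norm_num
    by_cases hz : Wc * Sc = 0
    · rw [hz]
      simp only [div_zero, zero_mul]
      positivity
    · have : 1 / (Wc * Sc) * (2 ^ r * (Wc * (2 ^ r * ((r + 1) * (1 / 16) ^ r * Sc)))) =
          (r + 1) * ((1 / 16) ^ r * (2 ^ r * 2 ^ r)) * ((Wc * Sc) / (Wc * Sc)) := by ring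
      rw [this, div_self hz, h16]
      apply le_of_eq
      ring
  refine e7.trans ?_
  have h8 : ((r : ℝ) + 1) ≤ 2 ^ r := by
    have : r + 1 ≤ 2 ^ r := Nat.lt_two_pow_self
    exact_mod_cast this
  have h9 : ((4 : ℝ)) ^ r = 2 ^ r * 2 ^ r := by
    rw [← mul_pow]
    norm_num
  calc ((r : ℝ) + 1) / 4 ^ r ≤ 2 ^ r / 4 ^ r := by
        apply div_le_div_of_nonneg_right h8 (by positivity)
    _ = 1 / 2 ^ r := by
        rw [h9]
        field_simp
    _ ≤ 1 / 2 ^ n := by
        apply one_div_le_one_div_of_le (by positivity)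
        exact pow_le_pow_right₀ (by norm_num) hnr

end Pool.Agent.H35.GG
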