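import Pool.Agent.H64.GG.TC

set_option autoImplicit false

/-!
# MP_c65535_nt, good radicals, all degrees, row INQ: the inequality
-/

namespace Pool.Agent.H35.GG

open NumberField Height Finset Polynomial Pool.Agent.H24.RD Pool.Agent.H23.RDD Pool.Agent.H29.RQ
  Pool.Agent.H29.SX Pool.Agent.H29.LG Pool.Agent.H64.GG

theorem alh_nonneg (x : Om) : 0 ≤ absLogHeight₁ x := by
  unfold absLogHeight₁ absMulHeight₁
  split_ifs with h
  · have h1 : FiniteDimensional ℚ (IntermediateField.adjoin ℚ {x}) :=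
      IntermediateField.adjoin.finiteDimensional h
    have h2 : NumberField (IntermediateField.adjoin ℚ {x}) := {}
    exact Real.log_nonneg (Real.one_le_rpow (one_le_mulHeight₁ _) (by positivity))
  · rw [Real.log_one]

/-! ## Fields inside the field of algebraic numbers -/

/-- membership in a field generated over `K` inside `M` -/
theorem mem_adj (K M : IntermediateField ℚ Om) (hKM : K ≤ M) [Algebra K M]
    (halg : ∀ x : K, ((algebraMap K M x : M) : Om) = x) (S : Set M) (y : Om)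
    (hy : y ∈ IntermediateField.adjoin ℚ ((K : Set Om) ∪ (fun z : M => (z : Om)) '' S)) :
    ∃ h : y ∈ M, (⟨y, h⟩ : M) ∈ IntermediateField.adjoin K S := by
  induction hy using IntermediateField.adjoin_induction with
  | mem y hy =>
    rcases hy with hy | ⟨z, hz, rfl⟩
    · refine ⟨hKM hy, ?_⟩
      have e : (⟨y, hKM hy⟩ : M) = algebraMap K M ⟨y, hy⟩ :=
        Subtype.ext (halg ⟨y, hy⟩).symm
      rw [e]
      exact IntermediateField.algebraMap_mem _ _
    · exact ⟨z.2, IntermediateField.subset_adjoin _ _ hz⟩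
  | algebraMap q =>
    refine ⟨M.algebraMap_mem q, ?_⟩
    have e : (⟨algebraMap ℚ Om q, M.algebraMap_mem q⟩ : M) =
        algebraMap K M (algebraMap ℚ K q) :=
      Subtype.ext (halg (algebraMap ℚ K q)).symm
    rw [e]
    exact IntermediateField.algebraMap_mem _ _
  | add x y _ _ hx hy =>
    obtain ⟨h1, h2⟩ := hx
    obtain ⟨h3, h4⟩ := hy
    exact ⟨add_mem h1 h3, add_mem h2 h4⟩
  | inv x _ hx =>
    obtain ⟨h1, h2⟩ := hx
    exact ⟨inv_mem h1, inv_mem h2⟩
  | mul x y _ _ hx hy =>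
    obtain ⟨h1, h2⟩ := hx
    obtain ⟨h3, h4⟩ := hy
    exact ⟨mul_mem h1 h3, mul_mem h2 h4⟩

theorem deg_le_of (F1 : IntermediateField ℚ Om) (d : ℕ) (β : Om) (X : Finset Om)
    (hX : X.card ≤ d) (hσ : ∀ σ : Om ≃ₐ[ℚ] Om, (∀ z ∈ F1, σ z = z) → σ β ∈ X) :
    (minpoly F1 β).natDegree ≤ d := by
  classical
  have : Algebra.IsAlgebraic ℚ Om := AlgebraicClosure.isAlgebraic ℚ
  have hK : Algebra.IsAlgebraic F1 Om := Algebra.IsAlgebraic.tower_top (K := ℚ) F1
  have hint : IsIntegral F1 β := (hK.isAlgebraic β).isIntegral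
  have hcl : IsAlgClosure F1 Om := ⟨inferInstance, hK⟩
  have hN : Normal F1 Om := IsAlgClosure.normal F1 Om
  have hsep : (minpoly F1 β).Separable := (minpoly.irreducible hint).separable
  have hcard := Polynomial.card_rootSet_eq_natDegree (K := Om) hsep (IsAlgClosed.splits _)
  rw [← hcard, ← Set.toFinset_card]
  refine (card_le_card ?_).trans hX
  intro x hx
  rw [Set.mem_toFinset, mem_rootSet] at hx
  obtain ⟨σ, hσx⟩ := minpoly.exists_algEquiv_of_root' (hK.isAlgebraic β) hx.2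
  have h1 := hσ (AlgEquiv.restrictScalars ℚ σ) (fun z hz => σ.commutes (⟨z, hz⟩ : F1))
  rw [← hσx]
  exact h1

theorem nf_of_le (S : Set Om) (hS : S.Finite) (M : IntermediateField ℚ Om)
    (hM : M ≤ IntermediateField.adjoin ℚ S) : NumberField M := by
  have : Algebra.IsAlgebraic ℚ Om := AlgebraicClosure.isAlgebraic ℚ
  have : Finite S := hS
  have h1 : FiniteDimensional ℚ (IntermediateField.adjoin ℚ S) :=
    IntermediateField.finiteDimensional_adjoin fun x _ =>
      (Algebra.IsAlgebraic.isAlgebraic x).isIntegral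
  have h2 : FiniteDimensional ℚ M :=
    FiniteDimensional.of_injective (IntermediateField.inclusion hM).toLinearMap
      (IntermediateField.inclusion hM).toRingHom.injective
  exact { to_charZero := inferInstance, to_finiteDimensional := h2 }

theorem fin_roots (m : ℕ) (hm : 0 < m) : {z : Om | z ^ m = 1}.Finite := by
  refine (nthRootsFinset m (1 : Om)).finite_toSet.subset ?_
  intro z hz
  rw [Finset.mem_coe, mem_nthRootsFinset hm]
  exact hz

theorem cy_le {m n : ℕ} (h : m ∣ n) : CY m ≤ CY n := by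
  unfold CY
  apply IntermediateField.adjoin.mono
  intro z hz
  obtain ⟨c, rfl⟩ := h
  have hz' : z ^ m = 1 := hz
  show z ^ (m * c) = 1
  rw [pow_mul, hz', one_pow]

theorem ind_res (K M L : IntermediateField ℚ Om) [Algebra K M]
    (halg : ∀ x : K, ((algebraMap K M x : M) : Om) = x) (hKL : K ≤ L) {r : ℕ}
    {θ : Fin r → Om} {N : Fin r → ℕ} (θ' : Fin r → M) (hθ' : ∀ i, (θ' i : Om) = θ i)
    (h : Ind L θ N) : Ind K θ' N := by
  unfold Ind at h ⊢
  rw [Fintype.linearIndependent_iff] at h ⊢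
  intro c hc j
  have h1 := h (fun j => ⟨(c j : Om), hKL (c j).2⟩) (by
    have h2 := congrArg (fun z : M => (z : Om)) hc
    have h3 : ((∑ j, c j • ∏ i, θ' i ^ (j i : ℕ) : M) : Om) =
        ∑ j, (c j : Om) * ∏ i, θ i ^ (j i : ℕ) := by
      have e1 : ∀ z : M, (z : Om) = M.val z := fun _ => rfl
      rw [e1, map_sum]
      refine Finset.sum_congr rfl fun j _ => ?_
      rw [Algebra.smul_def, map_mul, map_prod, ← e1, halg]
      refine congrArg₂ (· * ·) rfl (Finset.prod_congr rfl fun i _ => ?_)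
      rw [map_pow, ← e1, hθ']
    have h4 : ((∑ j, c j • ∏ i, θ' i ^ (j i : ℕ) : M) : Om) = ((0 : M) : Om) := h2
    rw [h3] at h4
    exact h4) j
  have h2 := congrArg (fun z : L => (z : Om)) h1
  exact Subtype.ext h2

theorem pt_coe (M : IntermediateField ℚ Om) {r : ℕ} {θ : Fin r → Om} {β : Om} (θ' : Fin r → M)
    (β' : M) (hθ' : ∀ i, (θ' i : Om) = θ i) (hβ' : (β' : Om) = β) (a : Fin (r + 1) → ℤ) :
    ((pt θ' β' a : M) : Om) = pt θ β a := by
  have e1 : ∀ z : M, (z : Om) = M.val z := fun _ => rfl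
  unfold pt
  rw [e1, map_mul, map_zpow₀, map_prod, ← e1, hβ']
  refine congrArg₂ (· * ·) rfl (Finset.prod_congr rfl fun i _ => ?_)
  rw [map_zpow₀, ← e1, hθ']

theorem jc_coe (M : IntermediateField ℚ Om) {m : ℕ} (κ : Fin m → ℕ) (a : Fin m → ℤ) :
    ((jc M κ a : M) : Om) = jc Om κ a := by
  have e1 : ∀ z : M, (z : Om) = M.val z := fun _ => rfl
  unfold jc
  rw [e1, map_prod]
  refine Finset.prod_congr rfl fun i _ => ?_
  rw [map_pow, map_intCast]

theorem sum_coe (K M : IntermediateField ℚ Om) [Algebra K M]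
    (halg : ∀ x : K, ((algebraMap K M x : M) : Om) = x) {R : ℕ} (x : Fin R → K)
    (y : Fin R → M) :
    ((∑ j, algebraMap K M (x j) * y j : M) : Om) = ∑ j, (x j : Om) * (y j : Om) := by
  have e1 : ∀ z : M, (z : Om) = M.val z := fun _ => rfl
  rw [e1, map_sum]
  refine Finset.sum_congr rfl fun j _ => ?_
  rw [map_mul, ← e1, ← e1, halg]

theorem mem_jk (K M : IntermediateField ℚ Om) [Algebra K M]
    (halg : ∀ x : K, ((algebraMap K M x : M) : Om) = x) {r R : ℕ} (t : ℕ)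
    {θ : Fin r → Om} {β : Om} (θ' : Fin r → M)
    (β' : M) (hθ' : ∀ i, (θ' i : Om) = θ i) (hβ' : (β' : Om) = β)
    (nn : Fin R → Fin (r + 1) → ℤ) (x : Fin R → K) :
    x ∈ JK K t (pt θ' β') nn ↔ ∀ κ : Fin (r + 1) → ℕ, ∑ l, κ l < t →
      ∑ j, (x j : Om) * (jc Om κ (nn j) * pt θ β (nn j)) = 0 := by
  have h1 : x ∈ JK K t (pt θ' β') nn ↔ ∀ κ : Fin (r + 1) → ℕ, ∑ l, κ l < t →
      ∑ j, algebraMap K M (x j) * (jc M κ (nn j) * pt θ' β' (nn j)) = 0 := Iff.rfl
  rw [h1]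
  refine forall_congr' fun κ => forall_congr' fun _ => ?_
  have h2 := sum_coe K M halg x (fun j => jc M κ (nn j) * pt θ' β' (nn j))
  have h3 : ∑ j, (x j : Om) * ((jc M κ (nn j) * pt θ' β' (nn j) : M) : Om) =
      ∑ j, (x j : Om) * (jc Om κ (nn j) * pt θ β (nn j)) := by
    refine Finset.sum_congr rfl fun j _ => ?_
    rw [← jc_coe M κ (nn j), ← pt_coe M θ' β' hθ' hβ' (nn j)]
    rfl
  rw [h3] at h2
  rw [← h2]
  constructor
  · intro h
    rw [h]
    rfl
  · intro h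
    exact Subtype.ext h

theorem restr (K : IntermediateField ℚ Om) (Φ : Om ≃ₐ[ℚ] Om) (h : ∀ z, z ∈ K ↔ Φ z ∈ K) :
    ∃ φ : K ≃+* K, ∀ x : K, ((φ x : K) : Om) = Φ x := by
  refine ⟨{ toFun := fun x => ⟨Φ x, (h x).1 x.2⟩
            invFun := fun y => ⟨Φ.symm y, (h _).2 (by rw [Φ.apply_symm_apply]; exact y.2)⟩
            left_inv := fun x => Subtype.ext (Φ.symm_apply_apply _)
            right_inv := fun x => Subtype.ext (Φ.apply_symm_apply _)
            map_mul' := fun x y => Subtype.ext (map_mul Φ _ _)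
            map_add' := fun x y => Subtype.ext (map_add Φ _ _) }, fun x => rfl⟩

/-- a polynomial for `β` over the field of the radicals -/
theorem ex_poly (K M : IntermediateField ℚ Om) (hKM : K ≤ M) [Algebra K M]
    (halg : ∀ x : K, ((algebraMap K M x : M) : Om) = x) {r : ℕ} {θ : Fin r → Om} {β : Om}
    (θ' : Fin r → M) (β' : M) (hθ' : ∀ i, (θ' i : Om) = θ i) (hβ' : (β' : Om) = β) (d : ℕ)
    (X : Finset Om) (hXc : X.card ≤ d) (hXσ : ∀ σ : Om ≃ₐ[ℚ] Om, (∀ z ∈ K, σ z = z) →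
      (∀ i, σ (θ i) = θ i) → σ β ∈ X) :
    ∃ f : (IntermediateField.adjoin K (Set.range θ'))[X], f.Monic ∧ f.natDegree ≤ d ∧
      aeval β' f = 0 := by
  have hS1 : (fun z : M => (z : Om)) '' (Set.range θ') = Set.range θ := by
    rw [← Set.range_comp]
    exact congrArg Set.range (funext hθ')
  obtain ⟨F1, hF1⟩ : ∃ F1 : IntermediateField ℚ Om,
      F1 = IntermediateField.adjoin ℚ ((K : Set Om) ∪ Set.range θ) := ⟨_, rfl⟩
  have hmem : ∀ y : F1, ∃ h : (y : Om) ∈ M,
      (⟨y, h⟩ : M) ∈ IntermediateField.adjoin K (Set.range θ') := fun y =>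
    mem_adj K M hKM halg (Set.range θ') y (by rw [hS1, ← hF1]; exact y.2)
  obtain ⟨j, hj⟩ : ∃ j : F1 →+* IntermediateField.adjoin K (Set.range θ'),
      ∀ y : F1, (((j y : IntermediateField.adjoin K (Set.range θ')) : M) : Om) = y :=
    ⟨{ toFun := fun y => ⟨⟨y, (hmem y).choose⟩, (hmem y).choose_spec⟩
       map_one' := Subtype.ext (Subtype.ext rfl)
       map_mul' := fun y z => Subtype.ext (Subtype.ext rfl)
       map_zero' := Subtype.ext (Subtype.ext rfl)
       map_add' := fun y z => Subtype.ext (Subtype.ext rfl) }, fun y => rfl⟩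
  have hdeg := deg_le_of F1 d β X hXc (by
    intro σ hσ
    apply hXσ σ
    · intro z hz
      exact hσ z (by rw [hF1]; exact IntermediateField.subset_adjoin _ _ (Or.inl hz))
    · intro i
      exact hσ _ (by rw [hF1]; exact IntermediateField.subset_adjoin _ _ (Or.inr ⟨i, rfl⟩)))
  have hint : IsIntegral F1 β := by
    have : Algebra.IsAlgebraic ℚ Om := AlgebraicClosure.isAlgebraic ℚ
    have hK : Algebra.IsAlgebraic F1 Om := Algebra.IsAlgebraic.tower_top (K := ℚ) F1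
    exact (hK.isAlgebraic β).isIntegral
  refine ⟨(minpoly F1 β).map j, (minpoly.monic hint).map j, natDegree_map_le.trans hdeg, ?_⟩
  apply Subtype.ext
  have h1 : ((aeval β' ((minpoly F1 β).map j) : M) : Om) = aeval β (minpoly F1 β) := by
    rw [aeval_def, eval₂_map, aeval_def]
    have e : ∀ z : M, (z : Om) = M.val.toRingHom z := fun _ => rfl
    rw [e, hom_eval₂, ← e, hβ']
    refine congrArg (fun h => eval₂ h β (minpoly F1 β)) ?_
    ext y
    exact hj y
  rw [h1, minpoly.aeval]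
  rfl

/-- the position of the small monomials -/
theorem floor_bd (y : ℝ) (j N : ℕ) (hj : j < N) : |((⌊y⌋ + (j : ℤ) : ℤ) : ℝ) - y| ≤ N := by
  have h1 := Int.floor_le y
  have h2 := Int.lt_floor_add_one y
  have h3 : ((j : ℕ) : ℝ) + 1 ≤ N := by exact_mod_cast hj
  have h4 : (0 : ℝ) ≤ (j : ℝ) := Nat.cast_nonneg j
  push_cast
  rw [abs_le]
  constructor <;> linarith

theorem pf_INQ (hINA : T_INA) (hCYK : T_CYK) (hHTV : T_HTV) (hGTP : T_GTP) (hJKD : T_JKD)
    (hHRD : T_HRD) (hNRV : T_NRV) : T_INQ := by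
  classical
  intro r a N hgood θ hθ m₀ m₃ d k K β g x hm₀ hm₃ hmm hcop hK hd hβ hg hk hgk hx hX hInd hSame
    hlam s t R d0 pr Φ δ ht hΦ0 hpr0 hΦ nn Q ρ G₀ hR hd0 hρ0 hρ1 hQ hnn hCols hQG hnn0
  obtain ⟨X, hXc, hXσ⟩ := hX
  have hN : ∀ i, 0 < N i := hgood.pos
  have hθ0 : ∀ i, θ i ≠ 0 := by
    intro i h
    have h1 := hθ i
    rw [h, zero_pow (hN i).ne'] at h1
    exact hgood.nz i ((map_eq_zero _).1 h1.symm)
  -- the fields
  obtain ⟨M, hM⟩ : ∃ M : IntermediateField ℚ Om,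
      M = IntermediateField.adjoin ℚ ((K : Set Om) ∪ insert β (Set.range θ)) := ⟨_, rfl⟩
  have hKM : K ≤ M := by
    rw [hM]
    intro z hz
    exact IntermediateField.subset_adjoin _ _ (Or.inl hz)
  have hβM : β ∈ M := by
    rw [hM]
    exact IntermediateField.subset_adjoin _ _ (Or.inr (Set.mem_insert _ _))
  have hθM : ∀ i, θ i ∈ M := by
    intro i
    rw [hM]
    exact IntermediateField.subset_adjoin _ _ (Or.inr (Set.mem_insert_of_mem _ ⟨i, rfl⟩))
  have hKn : NumberField K := nf_of_le _ (fin_roots m₀ hm₀) K hK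
  have hMn : NumberField M := by
    refine nf_of_le ({z | z ^ m₀ = 1} ∪ insert β (Set.range θ))
      ((fin_roots m₀ hm₀).union ((Set.finite_range θ).insert β)) M ?_
    rw [hM, IntermediateField.adjoin_le_iff]
    rintro z (hz | hz)
    · exact IntermediateField.adjoin.mono _ _ _ Set.subset_union_left (hK hz)
    · exact IntermediateField.subset_adjoin _ _ (Or.inr hz)
  let algKM : Algebra K M := (IntermediateField.inclusion hKM).toRingHom.toAlgebra
  have halg : ∀ x : K, ((algebraMap K M x : M) : Om) = x := fun x => rfl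
  obtain ⟨θ', hθ'⟩ : ∃ θ' : Fin r → M, ∀ i, (θ' i : Om) = θ i :=
    ⟨fun i => ⟨θ i, hθM i⟩, fun i => rfl⟩
  obtain ⟨β', hβ'⟩ : ∃ β' : M, (β' : Om) = β := ⟨⟨β, hβM⟩, rfl⟩
  have hβ'0 : β' ≠ 0 := by
    intro h
    rw [h] at hβ'
    exact hβ hβ'.symm
  have hθ'0 : ∀ i, θ' i ≠ 0 := by
    intro i h
    have h1 := hθ' i
    rw [h] at h1
    exact hθ0 i h1.symm
  have hpowM : ∀ i, θ' i ^ N i = algebraMap ℚ M (a i) := by
    intro i
    apply Subtype.ext
    have e1 : ((θ' i ^ N i : M) : Om) = (θ' i : Om) ^ N i := rfl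
    rw [e1, hθ', hθ]
    rfl
  have hpowK : ∀ i, θ' i ^ N i = algebraMap K M (algebraMap ℚ K (a i)) := by
    intro i
    rw [hpowM i]
    simp only [eq_ratCast, map_ratCast]
  have hS2 : (fun z : M => (z : Om)) '' (insert β' (Set.range θ')) = insert β (Set.range θ) := by
    rw [Set.image_insert_eq, ← Set.range_comp]
    exact congrArg₂ insert hβ' (congrArg Set.range (funext hθ'))
  have hadj : IntermediateField.adjoin K (insert β' (Set.range θ')) = ⊤ := by
    rw [eq_top_iff]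
    rintro y _
    obtain ⟨h1, h2⟩ := mem_adj K M hKM halg (insert β' (Set.range θ')) y
      (by rw [hS2, ← hM]; exact y.2)
    exact h2
  have hKL : K ≤ CY m₃ := hK.trans (cy_le hmm)
  have hIndM : Ind K θ' N := ind_res K M (CY m₃) halg hKL θ' hθ' hInd
  -- the primes which divide the levels
  have hdisc : ∀ q : ℕ, q.Prime → q ∣ ∏ i, N i → ¬ (q : ℤ) ∣ discr K ∧ Unr K q := by
    intro q hq hqN
    obtain ⟨i, _, hi⟩ := (Prime.dvd_finsetProd_iff hq.prime N).1 hqN
    refine hCYK m₀ K hm₀ hK q hq fun h => ?_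
    exact Nat.not_coprime_of_dvd_of_dvd hq.one_lt h hi (hcop i)
  -- the Frobenius substitutions
  have hΦ' : ∀ c : Fin s, ∃ φ : K ≃+* K, ∀ x : K, ((φ x : K) : Om) = Φ ((c : ℕ) + 1) x :=
    fun c => restr K (Φ ((c : ℕ) + 1)) (hΦ ((c : ℕ) + 1) (by omega) (by omega)).2.2.2.2.1
  choose φ hφ using hΦ'
  -- the small monomials
  obtain ⟨lam, hlamd⟩ : ∃ lam, lam = absLogHeight₁ (β * g) := ⟨_, rfl⟩
  obtain ⟨H, hH⟩ : ∃ H : Fin r → ℝ, H = fun i => BB (a i) / N i := ⟨_, rfl⟩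
  obtain ⟨ξ, hξ⟩ : ∃ ξ : Fin r → ℝ, ξ = fun i => (x i : ℝ) / k := ⟨_, rfl⟩
  rw [← hlamd] at hlam hnn ⊢
  rw [← hH, ← hξ] at hnn
  have hBB : ∀ i, 1 ≤ BB (a i) := by
    intro i
    unfold BB
    have := alh_nonneg (algebraMap ℚ Om (a i))
    linarith
  have hNR : ∀ i, (0 : ℝ) < N i := fun i => by exact_mod_cast hN i
  have hHpos : ∀ i, 0 < H i := by
    intro i
    rw [hH]
    exact div_pos (lt_of_lt_of_le one_pos (hBB i)) (hNR i)
  have hHN : ∀ i, H i * N i = BB (a i) := by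
    intro i
    rw [hH]
    exact div_mul_cancel₀ _ (hNR i).ne'
  have hgtp := hGTP K M r N (fun i => algebraMap ℚ K (a i)) θ' β' d hd hN (fun i => by
      rw [Ne, map_eq_zero]
      exact hgood.nz i) hβ'0 hpowK hadj (ex_poly K M hKM halg θ' β' hθ' hβ' d X hXc hXσ)
    (fun i l => ⌊(i : ℝ) * ξ l⌋)
  obtain ⟨T, hT⟩ : ∃ T, Fintype.card (Fin d × ((l : Fin r) → Fin (N l))) = T := ⟨_, rfl⟩
  have hTd : T = d * ∏ l, N l := by
    rw [← hT, Fintype.card_prod, Fintype.card_fin, Fintype.card_pi]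
    exact congrArg _ (Finset.prod_congr rfl fun l _ => Fintype.card_fin _)
  obtain ⟨e⟩ : Nonempty (Fin d × ((l : Fin r) → Fin (N l)) ≃ Fin T) :=
    ⟨Fintype.equivFinOfCardEq hT⟩
  obtain ⟨b, hb0, hbs⟩ : ∃ b : Fin T → Fin (r + 1) → ℤ,
      (∀ u, b u 0 = (((e.symm u).1 : ℕ) : ℤ)) ∧
      ∀ u l, b u l.succ = ⌊(((e.symm u).1 : ℕ) : ℝ) * ξ l⌋ + (((e.symm u).2 l : ℕ) : ℤ) :=
    ⟨fun u => Fin.cons (((e.symm u).1 : ℕ) : ℤ) (fun l =>
      ⌊(((e.symm u).1 : ℕ) : ℝ) * ξ l⌋ + (((e.symm u).2 l : ℕ) : ℤ)), fun u => rfl,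
      fun u l => rfl⟩
  have hspan : Submodule.span K (Set.range fun u => pt θ' β' (b u)) = ⊤ := by
    rw [eq_top_iff, ← hgtp]
    apply Submodule.span_mono
    rintro z ⟨i, j, hi, hj, rfl⟩
    refine ⟨e (⟨i, hi⟩, fun l => ⟨j l, hj l⟩), ?_⟩
    dsimp only
    unfold pt
    rw [hb0, Equiv.symm_apply_apply, zpow_natCast]
    refine congrArg₂ (· * ·) rfl (Finset.prod_congr rfl fun l _ => ?_)
    rw [hbs, Equiv.symm_apply_apply]
  have hfin : Module.finrank K M ≤ T := by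
    have h := finrank_range_le_card (R := K) (fun u => pt θ' β' (b u))
    rwa [Fintype.card_fin, Set.finrank, hspan, finrank_top] at h
  have hT0 : 0 < T := by
    rw [hTd]
    exact Nat.mul_pos hd (Finset.prod_pos fun l _ => hN l)
  have hη0 : 0 ≤ d * lam + ∑ i, BB (a i) := by
    have h1 : 0 ≤ ∑ i, BB (a i) := Finset.sum_nonneg fun i _ => zero_le_one.trans (hBB i)
    have h2 : (0 : ℝ) ≤ d * lam := mul_nonneg (Nat.cast_nonneg _) hlam.le
    linarith
  have hbn : ∀ u, nrmV r lam H ξ (b u) ≤ d * lam + ∑ i, BB (a i) := by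
    intro u
    unfold nrmV
    refine add_le_add ?_ (Finset.sum_le_sum fun i _ => ?_)
    · refine mul_le_mul_of_nonneg_right ?_ hlam.le
      rw [hb0, Int.cast_natCast, Nat.abs_cast]
      exact_mod_cast (e.symm u).1.2.le
    · rw [← hHN i]
      refine mul_le_mul_of_nonneg_left ?_ (hHpos i).le
      rw [hbs, hb0, Int.cast_natCast]
      exact floor_bd _ _ _ ((e.symm u).2 i).2
  have hgk' : g ^ k = ∏ i, (θ' i : Om) ^ x i := by
    rw [hgk]
    exact Finset.prod_congr rfl fun i _ => by rw [hθ']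
  have hlam' : 0 < absLogHeight₁ ((β' : Om) * g) := by
    rw [hβ', ← hlamd]
    exact hlam
  have hHθ : ∀ i, 0 < H i ∧ absLogHeight₁ (θ' i : Om) ≤ H i := by
    intro i
    refine ⟨hHpos i, ?_⟩
    rw [hθ', hH]
    exact hHRD (a i) (N i) (θ i) (hN i) (hθ i)
  have hG := hHTV M r θ' β' g k x H hβ'0 hθ'0 hg hk hgk' hlam' hHθ
    (d * lam + ∑ i, BB (a i)) T b hT0 hη0 (by
      intro j
      rw [hβ', ← hlamd, ← hξ]
      exact hbn j)
  have hnnh := hHTV M r θ' β' g k x H hβ'0 hθ'0 hg hk hgk' hlam' hHθ ρ R nn hR hρ0 (by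
      intro j
      rw [hβ', ← hlamd, ← hξ]
      exact hnn j)
  -- the exponents
  have hξ01 : ∀ i, 0 ≤ ξ i ∧ ξ i ≤ 1 := by
    intro i
    have hk' : (0 : ℝ) < k := by exact_mod_cast hk
    obtain ⟨h1, h2⟩ := hx i
    have h3 : (0 : ℝ) ≤ x i := by exact_mod_cast h1
    have h4 : (x i : ℝ) ≤ k := by exact_mod_cast h2.le
    rw [hξ]
    exact ⟨div_nonneg h3 hk'.le, (div_le_one hk').2 h4⟩
  obtain ⟨_, hnv⟩ := hNRV r lam H ξ hlam hHpos
  have hρl : 0 ≤ ρ / lam := div_nonneg hρ0 hlam.le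
  have hX0 : ∀ j, |(nn j 0 : ℝ)| ≤ 1 + ρ / lam := by
    intro j
    have := (hnv ρ (nn j) (hnn j)).1
    linarith
  have hXs : ∀ j i, |(nn j i.succ : ℝ)| ≤ N i * (1 + ρ / lam) := by
    intro j i
    obtain ⟨h1, h2⟩ := hnv ρ (nn j) (hnn j)
    have h3 := h2 i
    have h4 : ρ / H i ≤ N i := by
      rw [div_le_iff₀ (hHpos i), mul_comm, hHN i]
      exact hρ1.trans (hBB i)
    have h5 : |(nn j 0 : ℝ) * ξ i| ≤ ρ / lam := by
      rw [abs_mul, abs_of_nonneg (hξ01 i).1]
      calc |(nn j 0 : ℝ)| * ξ i ≤ |(nn j 0 : ℝ)| * 1 :=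
            mul_le_mul_of_nonneg_left (hξ01 i).2 (abs_nonneg _)
        _ ≤ ρ / lam := by rw [mul_one]; exact h1
    have h6 : (1 : ℝ) ≤ N i := by exact_mod_cast hN i
    have h7 : |(nn j i.succ : ℝ)| ≤ |(nn j i.succ : ℝ) - nn j 0 * ξ i| +
        |(nn j 0 : ℝ) * ξ i| := by
      have := abs_add_le ((nn j i.succ : ℝ) - nn j 0 * ξ i) ((nn j 0 : ℝ) * ξ i)
      rwa [sub_add_cancel] at this
    have h8 : ρ / lam ≤ N i * (ρ / lam) := le_mul_of_one_le_left hρl h6
    rw [mul_add, mul_one]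
    linarith
  -- the columns
  have hyl0 : ∀ b : Fin (r + 1) → ℤ, yl ℚ Om Φ pr θ β 0 b = pt θ β b := by
    intro b
    unfold yl
    rw [hpr0, pow_one]
    have h1 := hΦ0 ((Φ 0).symm (pt θ β b))
    rw [AlgEquiv.apply_symm_apply] at h1
    exact h1.symm
  have hyl0' : yl ℚ Om Φ pr θ β 0 = pt θ β := funext hyl0
  have hdim : R ≤ d0 + Module.finrank K (JK K t (pt θ' β') nn) := by
    have h1 := hCols.dim
    rw [hyl0', ← hJKD K (CY m₃) r θ β hKL hSame t R nn] at h1
    have h2 : JK K t (pt θ' β') nn = JK K t (pt θ β) nn := by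
      ext y
      rw [mem_jk K M halg t θ' β' hθ' hβ' nn y]
      exact Iff.rfl
    rw [h2]
    exact h1
  have hinj : ∀ y ∈ JK K t (pt θ' β') nn,
      (∀ c : Fin s, ∑ j, algebraMap K M (φ c (y j)) * pt θ' β' (nn j) ^ pr ((c : ℕ) + 1) = 0) →
      y = 0 := by
    intro y hy hyc
    rw [mem_jk K M halg t θ' β' hθ' hβ' nn y] at hy
    obtain ⟨y', hy'⟩ : ∃ y' : Fin R → CY m₃, ∀ j, (y' j : Om) = y j :=
      ⟨fun j => ⟨y j, hKL (y j).2⟩, fun j => rfl⟩
    have h1 : y' = 0 := by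
      refine hCols.inj y' ?_ ?_
      · rw [hyl0']
        intro κ hκ
        rw [← hy κ hκ]
        refine Finset.sum_congr rfl fun j _ => ?_
        rw [← hy' j]
        rfl
      · intro c hc1 hcs
        obtain ⟨c', rfl⟩ : ∃ c', c = c' + 1 := ⟨c - 1, by omega⟩
        have h2 := hyc ⟨c', by omega⟩
        have h3 := congrArg (fun z : M => (z : Om)) h2
        have h4 := sum_coe K M halg (fun j => φ ⟨c', by omega⟩ (y j))
          (fun j => pt θ' β' (nn j) ^ pr (c' + 1))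
        have h5 : ∑ j, ((φ ⟨c', by omega⟩ (y j) : K) : Om) *
            ((pt θ' β' (nn j) ^ pr (c' + 1) : M) : Om) = 0 := by
          rw [← h4]
          exact h3
        have h6 : Φ (c' + 1) (∑ j, algebraMap (CY m₃) Om (y' j) *
            yl ℚ Om Φ pr θ β (c' + 1) (nn j)) = 0 := by
          rw [← h5, map_sum]
          refine Finset.sum_congr rfl fun j _ => ?_
          have e1 : algebraMap (CY m₃) Om (y' j) = y j := hy' j
          have e2 : ((pt θ' β' (nn j) ^ pr (c' + 1) : M) : Om) =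
              (pt θ β (nn j)) ^ pr (c' + 1) := by
            rw [← pt_coe M θ' β' hθ' hβ' (nn j)]
            rfl
          rw [map_mul, e1, e2, hφ]
          unfold yl
          rw [map_pow, AlgEquiv.apply_symm_apply]
        exact (map_eq_zero (Φ (c' + 1))).1 h6
    funext j
    have h2 := hy' j
    rw [h1] at h2
    exact Subtype.ext h2.symm
  -- the inequality
  have hmain := hINA K M r a N θ' β' hgood hpowM hIndM hβ'0 hdisc s t R T
    (fun c => pr ((c : ℕ) + 1)) φ (fun c => δ ((c : ℕ) + 1)) (by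
      intro c
      obtain ⟨h1, h2, h3, h4, h5⟩ := hΦ ((c : ℕ) + 1) (by omega) (by omega)
      refine ⟨h1, h2, h3, h4, ?_⟩
      intro w hw y hy
      obtain ⟨h6, h7⟩ := h5.2 M hKM w hw (algebraMap K M y) (algebraMap K M (φ c y))
        (by rw [halg]; exact y.2) (by rw [halg, halg, hφ])
      refine ⟨h6.le.trans hy, ?_⟩
      rw [map_sub, map_pow]
      exact h7 hy) nn (fun u => pt θ' β' (b u)) hR (by
      intro u
      unfold pt
      exact mul_ne_zero (zpow_ne_zero _ hβ'0)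
        (Finset.prod_ne_zero_iff.2 fun i _ => zpow_ne_zero _ (hθ'0 i))) hspan hinj d0
    (1 + ρ / lam) (2 * (r + 1) * ρ) (2 * (r + 1) * (d * lam + ∑ i, BB (a i))) Q G₀ hdim hd0
    (by linarith) hX0 hXs hnnh hG (fun c => (hQG ((c : ℕ) + 1) (by omega) (by omega)).1)
    (fun c => (hQG ((c : ℕ) + 1) (by omega) (by omega)).2) hnn0
  refine hmain.trans ?_
  have hP0 : (0 : ℝ) < (∏ i, N i : ℕ) := by
    exact_mod_cast Finset.prod_pos fun l _ => hN l
  have hq1 : (Module.finrank K M : ℝ) / (∏ i, N i : ℕ) ≤ d := by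
    rw [div_le_iff₀ hP0]
    have h1 : Module.finrank K M ≤ d * ∏ l, N l := hfin.trans_eq hTd
    exact_mod_cast h1
  have hq0 : 0 < (Module.finrank K M : ℝ) / (∏ i, N i : ℕ) :=
    div_pos (by exact_mod_cast Module.finrank_pos) hP0
  have ht0 : (0 : ℝ) < (t : ℝ) ^ (r + 1) + s := by
    have h1 : (0 : ℝ) < t := by exact_mod_cast ht
    positivity
  have hlog : Real.log (((t : ℝ) ^ (r + 1) + s) * ((Module.finrank K M : ℝ) / (∏ i, N i : ℕ))) ≤
      Real.log (((t : ℝ) ^ (r + 1) + s) * d) :=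
    Real.log_le_log (mul_pos ht0 hq0) (mul_le_mul_of_nonneg_left hq1 ht0.le)
  have hRR : (0 : ℝ) ≤ R := Nat.cast_nonneg R
  push_cast at hlog ⊢
  gcongr

end Pool.Agent.H35.GG
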