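import Pool.Agent.H64.GG.TA

set_option autoImplicit false

/-!
# MP_c65535_nt, good radicals, all degrees, row MXB: coordinates with respect to the radicals at a
prime which divides the level
-/

namespace Pool.Agent.H35.GG

open NumberField Height Finset Polynomial Pool.Agent.H24.RD Pool.Agent.H23.RDD Pool.Agent.H29.RQ
  Pool.Agent.H29.SX Pool.Agent.H29.LG Pool.Agent.H64.GG

/-! ## Integral elements -/

section
variable {K : Type} [Field K] [NumberField K] {p : ℕ}

theorem pint_zero : PInt K p 0 := by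
  intro v _
  rw [map_zero]
  exact zero_le_one

theorem pint_one : PInt K p 1 := by
  intro v _
  rw [map_one]

theorem pint_add {x y : K} (hx : PInt K p x) (hy : PInt K p y) : PInt K p (x + y) := by
  intro v hv
  have h : v.1 (x + y) ≤ max (v.1 x) (v.1 y) := FinitePlace.add_le v x y
  exact h.trans (max_le (hx v hv) (hy v hv))

theorem pint_neg {x : K} (hx : PInt K p x) : PInt K p (-x) := by
  intro v hv
  rw [AbsoluteValue.map_neg]
  exact hx v hv

theorem pint_mul {x y : K} (hx : PInt K p x) (hy : PInt K p y) : PInt K p (x * y) := by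
  intro v hv
  rw [map_mul]
  exact mul_le_one₀ (hx v hv) (v.1.nonneg _) (hy v hv)

theorem pint_pow {x : K} (hx : PInt K p x) (n : ℕ) : PInt K p (x ^ n) := by
  intro v hv
  rw [map_pow]
  exact pow_le_one₀ (v.1.nonneg _) (hx v hv)

theorem pint_prod {ι : Type} (S : Finset ι) (f : ι → K) (h : ∀ i ∈ S, PInt K p (f i)) :
    PInt K p (∏ i ∈ S, f i) := by
  intro v hv
  rw [map_prod]
  exact Finset.prod_le_one (fun i _ => v.1.nonneg _) (fun i hi => h i hi v hv)

theorem pint_rat (hVB : T_VB) (hp : p.Prime) (a : ℚ) (h0 : padicValRat p a = 0) :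
    PInt K p (algebraMap ℚ K a) := by
  intro v hv
  obtain ⟨_, hp0, hint, hm, _⟩ := hVB K p hp v hv
  have hden : ¬ p ∣ a.den := by
    intro hd
    have : Fact p.Prime := ⟨hp⟩
    have h1 : padicValRat p a = padicValInt p a.num - padicValNat p a.den := rfl
    have h2 : 1 ≤ padicValNat p a.den := one_le_padicValNat_of_dvd a.den_nz hd
    have h3 : 1 ≤ padicValNat p a.num.natAbs := by
      have : padicValInt p a.num = padicValNat p a.num.natAbs := rfl
      omega
    have h4 : p ∣ a.num.natAbs := dvd_of_one_le_padicValNat h3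
    exact Nat.not_coprime_of_dvd_of_dvd hp.one_lt h4 hd a.reduced
  have h1 : algebraMap ℚ K a = (a.num : K) / (a.den : K) := by
    rw [eq_ratCast]
    exact Rat.cast_def a
  rw [h1, map_div₀, hm a.den hden, div_one]
  apply hint
  have := isIntegral_algebraMap (R := ℤ) (A := K) (x := a.num)
  rwa [eq_intCast] at this

end

/-! ## Elements with integral coordinates -/

section
variable {K M : Type} [Field K] [NumberField K] [Field M] [Algebra K M] {r : ℕ}
  {N : Fin r → ℕ} {θ : Fin r → M} {p : ℕ}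

/-- the elements with integral coordinates -/
def ZR (K : Type) {M : Type} [Field K] [NumberField K] [Field M] [Algebra K M] {r : ℕ}
    (N : Fin r → ℕ) (θ : Fin r → M) (p : ℕ) (x : M) : Prop :=
  ∃ c : ((i : Fin r) → Fin (N i)) → K, (∀ j, PInt K p (c j)) ∧
    x = ∑ j, algebraMap K M (c j) * ∏ i, θ i ^ (j i : ℕ)

theorem zr_zero : ZR K N θ p 0 :=
  ⟨fun _ => 0, fun _ => pint_zero, by simp⟩

theorem zr_add {x y : M} (hx : ZR K N θ p x) (hy : ZR K N θ p y) : ZR K N θ p (x + y) := by
  obtain ⟨c, hc, rfl⟩ := hx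
  obtain ⟨d, hd, rfl⟩ := hy
  refine ⟨fun j => c j + d j, fun j => pint_add (hc j) (hd j), ?_⟩
  rw [← Finset.sum_add_distrib]
  refine Finset.sum_congr rfl fun j _ => ?_
  rw [map_add]
  ring

theorem zr_neg {x : M} (hx : ZR K N θ p x) : ZR K N θ p (-x) := by
  obtain ⟨c, hc, rfl⟩ := hx
  refine ⟨fun j => -c j, fun j => pint_neg (hc j), ?_⟩
  rw [← Finset.sum_neg_distrib]
  refine Finset.sum_congr rfl fun j _ => ?_
  rw [map_neg]
  ring

theorem zr_sum {ι : Type} (S : Finset ι) (f : ι → M) (h : ∀ s ∈ S, ZR K N θ p (f s)) :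
    ZR K N θ p (∑ s ∈ S, f s) := by
  classical
  induction S using Finset.induction_on with
  | empty => simpa using zr_zero
  | insert a S ha ih =>
    rw [Finset.sum_insert ha]
    exact zr_add (h a (Finset.mem_insert_self a S))
      (ih fun s hs => h s (Finset.mem_insert_of_mem hs))

theorem zr_mono (hN : ∀ i, 0 < N i) (a : Fin r → K)
    (hθ : ∀ i, θ i ^ N i = algebraMap K M (a i)) (ha : ∀ i, PInt K p (a i)) {d : K}
    (hd : PInt K p d) (n : Fin r → ℕ) : ZR K N θ p (algebraMap K M d * ∏ i, θ i ^ n i) := by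
  classical
  obtain ⟨j0, hj0⟩ : ∃ j0 : (i : Fin r) → Fin (N i), ∀ i, ((j0 i : ℕ)) = n i % N i :=
    ⟨fun i => ⟨n i % N i, Nat.mod_lt _ (hN i)⟩, fun i => rfl⟩
  refine ⟨fun j => if j = j0 then d * ∏ i, a i ^ (n i / N i) else 0, ?_, ?_⟩
  · intro j
    dsimp only
    split_ifs
    · exact pint_mul hd (pint_prod _ _ fun i _ => pint_pow (ha i) _)
    · exact pint_zero
  · rw [Finset.sum_eq_single j0]
    · dsimp only
      rw [if_pos rfl, map_mul, map_prod, mul_assoc, ← Finset.prod_mul_distrib]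
      refine congrArg _ (Finset.prod_congr rfl fun i _ => ?_)
      rw [map_pow, ← hθ, ← pow_mul, ← pow_add, hj0, Nat.div_add_mod]
    · intro j _ hj
      dsimp only
      rw [if_neg hj, map_zero, zero_mul]
    · intro h
      exact absurd (Finset.mem_univ _) h

theorem zr_ring (hN : ∀ i, 0 < N i) (a : Fin r → K)
    (hθ : ∀ i, θ i ^ N i = algebraMap K M (a i)) (ha : ∀ i, PInt K p (a i)) :
    ∃ S : Subring M, (∀ x, x ∈ S ↔ ZR K N θ p x) ∧ (∀ i, θ i ∈ S) ∧
      ∀ d : K, PInt K p d → algebraMap K M d ∈ S := by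
  classical
  have hone : ZR K N θ p (1 : M) := by
    have h := zr_mono hN a hθ ha (pint_one (K := K) (p := p)) (fun _ => 0)
    simpa using h
  have hmul : ∀ x y : M, ZR K N θ p x → ZR K N θ p y → ZR K N θ p (x * y) := by
    rintro x y ⟨c, hc, rfl⟩ ⟨d, hd, rfl⟩
    rw [Finset.sum_mul_sum]
    refine zr_sum _ _ fun j _ => zr_sum _ _ fun j' _ => ?_
    have h := zr_mono hN a hθ ha (pint_mul (hc j) (hd j'))
      (fun i => (j i : ℕ) + (j' i : ℕ))
    have e : (algebraMap K M (c j) * ∏ i, θ i ^ (j i : ℕ)) *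
        (algebraMap K M (d j') * ∏ i, θ i ^ (j' i : ℕ)) =
        algebraMap K M (c j * d j') * ∏ i, θ i ^ ((j i : ℕ) + (j' i : ℕ)) := by
      rw [map_mul, Finset.prod_congr rfl fun i _ => pow_add (θ i) (j i : ℕ) (j' i : ℕ),
        Finset.prod_mul_distrib]
      ring
    rw [e]
    exact h
  refine ⟨{ carrier := {x | ZR K N θ p x}
            mul_mem' := fun {x y} hx hy => hmul x y hx hy
            one_mem' := hone
            add_mem' := fun {x y} hx hy => zr_add hx hy
            zero_mem' := zr_zero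
            neg_mem' := fun {x} hx => zr_neg hx }, fun x => Iff.rfl, ?_, ?_⟩
  · intro i
    have h := zr_mono hN a hθ ha (pint_one (K := K) (p := p)) (fun l => if l = i then 1 else 0)
    have e : algebraMap K M 1 * ∏ l, θ l ^ (if l = i then 1 else 0) = θ i := by
      rw [map_one, one_mul, Finset.prod_eq_single i]
      · rw [if_pos rfl, pow_one]
      · intro l _ hl
        rw [if_neg hl, pow_zero]
      · intro h
        exact absurd (Finset.mem_univ _) h
    rw [e] at h
    exact h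
  · intro d hd
    have h := zr_mono hN a hθ ha hd (fun _ => 0)
    simpa using h

end

/-! ## Sums of elements with different values -/

theorem na_lt {M : Type} [Field M] (w : AbsoluteValue M ℝ) (hw : IsNonarchimedean w) (x y : M)
    (h : w x < w y) : w (x + y) = w y := by
  apply le_antisymm
  · exact (hw x y).trans (by rw [max_eq_right h.le])
  · have h1 : w y ≤ max (w (x + y)) (w (-x)) := by
      have := hw (x + y) (-x)
      have e : x + y + -x = y := by ring
      rwa [e] at this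
    rw [AbsoluteValue.map_neg] at h1
    rcases le_max_iff.1 h1 with h2 | h2
    · exact h2
    · exact absurd h2 (not_le.2 h)

theorem ultra {M : Type} [Field M] (w : AbsoluteValue M ℝ) (hw : IsNonarchimedean w) {ι : Type}
    (S : Finset ι) (x : ι → M) (hd : ∀ s ∈ S, ∀ t ∈ S, s ≠ t → x s ≠ 0 → x t ≠ 0 →
    w (x s) ≠ w (x t)) : (∀ s ∈ S, w (x s) ≤ w (∑ t ∈ S, x t)) ∧
    (∑ t ∈ S, x t ≠ 0 → ∃ s ∈ S, x s ≠ 0 ∧ w (∑ t ∈ S, x t) = w (x s)) := by
  classical
  induction S using Finset.induction_on with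
  | empty => simp
  | insert a S ha ih =>
    obtain ⟨h1, h2⟩ := ih fun s hs t ht => hd s (Finset.mem_insert_of_mem hs) t
      (Finset.mem_insert_of_mem ht)
    rw [Finset.sum_insert ha]
    by_cases hxa : x a = 0
    · rw [hxa, zero_add]
      refine ⟨?_, ?_⟩
      · intro s hs
        rcases Finset.mem_insert.1 hs with rfl | hs
        · rw [hxa, map_zero]
          exact w.nonneg _
        · exact h1 s hs
      · intro h
        obtain ⟨s, hs, h3⟩ := h2 h
        exact ⟨s, Finset.mem_insert_of_mem hs, h3⟩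
    · by_cases hS : ∑ t ∈ S, x t = 0
      · rw [hS, add_zero]
        refine ⟨?_, fun _ => ⟨a, Finset.mem_insert_self a S, hxa, rfl⟩⟩
        intro s hs
        rcases Finset.mem_insert.1 hs with rfl | hs
        · exact le_rfl
        · have h3 := h1 s hs
          rw [hS, map_zero] at h3
          exact h3.trans (w.nonneg _)
      · obtain ⟨s0, hs0, hx0, he0⟩ := h2 hS
        have hne : w (x a) ≠ w (∑ t ∈ S, x t) := by
          rw [he0]
          exact hd a (Finset.mem_insert_self a S) s0 (Finset.mem_insert_of_mem hs0)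
            (fun h => ha (h ▸ hs0)) hxa hx0
        rcases lt_or_gt_of_ne hne with h3 | h3
        · rw [na_lt w hw _ _ h3]
          refine ⟨?_, fun _ => ⟨s0, Finset.mem_insert_of_mem hs0, hx0, he0⟩⟩
          intro s hs
          rcases Finset.mem_insert.1 hs with rfl | hs
          · exact h3.le
          · exact h1 s hs
        · rw [add_comm, na_lt w hw _ _ h3]
          refine ⟨?_, fun _ => ⟨a, Finset.mem_insert_self a S, hxa, rfl⟩⟩
          intro s hs
          rcases Finset.mem_insert.1 hs with rfl | hs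
          · exact le_rfl
          · exact (h1 s hs).trans h3.le

/-- the values of the terms of an expansion in powers of an element with a fractional value -/
theorem vals {M : Type} [Field M] (w : AbsoluteValue M ℝ) (hw : IsNonarchimedean w) {P : ℝ}
    (hP0 : 0 < P) (hP1 : P < 1) {q : ℕ} (hq : 0 < q) {π : M} (hπ : w π ^ q = P)
    (c : Fin q → M) (hc : ∀ t, c t ≠ 0 → ∃ n : ℤ, w (c t) = P ^ n) (t : Fin q) :
    w (c t * π ^ (t : ℕ)) ≤ w (∑ s, c s * π ^ (s : ℕ)) ∧
    (w (∑ s, c s * π ^ (s : ℕ)) ≤ 1 → w (c t) ≤ 1) := by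
  have hval : ∀ (s : Fin q) (n : ℤ), w (c s) = P ^ n →
      w (c s * π ^ (s : ℕ)) ^ q = P ^ (n * q + s) := by
    intro s n hn
    rw [map_mul, map_pow, mul_pow, hn, ← pow_mul, mul_comm (s : ℕ) q, pow_mul, hπ,
      zpow_add₀ hP0.ne', zpow_mul, zpow_natCast, zpow_natCast]
  have h1 : w (c t * π ^ (t : ℕ)) ≤ w (∑ s, c s * π ^ (s : ℕ)) := by
    refine (ultra w hw Finset.univ (fun s : Fin q => c s * π ^ (s : ℕ)) ?_).1 t
      (Finset.mem_univ t)
    intro s _ s' _ hss hs hs' heq
    obtain ⟨n, hn⟩ := hc s (left_ne_zero_of_mul hs)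
    obtain ⟨n', hn'⟩ := hc s' (left_ne_zero_of_mul hs')
    have h2 := hval s n hn
    have h3 := hval s' n' hn'
    rw [heq, h3] at h2
    have h4 : n' * q + s' = n * q + (s : ℤ) := zpow_right_injective₀ hP0 hP1.ne h2
    have h5 : ((s' : ℕ) : ℤ) % q = ((s : ℕ) : ℤ) % q := by
      have := congrArg (· % (q : ℤ)) h4
      simpa using this
    rw [Int.emod_eq_of_lt (by positivity) (by exact_mod_cast s'.2),
      Int.emod_eq_of_lt (by positivity) (by exact_mod_cast s.2)] at h5
    exact hss (Fin.ext (by exact_mod_cast h5.symm))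
  refine ⟨h1, fun h => ?_⟩
  by_cases hct : c t = 0
  · rw [hct, map_zero]
    exact zero_le_one
  · obtain ⟨n, hn⟩ := hc t hct
    have h2 : w (c t * π ^ (t : ℕ)) ^ q ≤ 1 :=
      pow_le_one₀ (w.nonneg _) (h1.trans h)
    rw [hval t n hn] at h2
    have h3 : 0 ≤ n * q + (t : ℤ) := by
      by_contra hcon
      push Not at hcon
      have := one_lt_zpow_of_neg₀ hP0 hP1 hcon
      linarith
    have h4 : 0 ≤ n := by
      by_contra hcon
      push Not at hcon
      have h5 : n * q ≤ -1 * q := mul_le_mul_of_nonneg_right (by omega) (by positivity)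
      have h6 : ((t : ℕ) : ℤ) < q := by exact_mod_cast t.2
      linarith
    rw [hn]
    obtain ⟨m, rfl⟩ := Int.eq_ofNat_of_zero_le h4
    rw [zpow_natCast]
    exact pow_le_one₀ hP0.le hP1.le

theorem pf_MXB (hTRG : T_TRG) (hMXE : T_MXE) (hUNV : T_UNV) (hEXTP : T_EXTP) (hVB : T_VB) :
    T_MXB := by
  classical
  intro K M _ _ _ _ _ r a N θ p hL hpN hfr z hz
  have hp := hL.prime
  have hN : ∀ i, 0 < N i := hL.good.pos
  -- the ring of the elements with integral coordinates
  have hpowK : ∀ i, θ i ^ N i = algebraMap K M (algebraMap ℚ K (a i)) := by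
    intro i
    rw [hL.pow i]
    simp only [eq_ratCast, map_ratCast]
  obtain ⟨S, hS, hSθ, hSK⟩ := zr_ring hN (fun i => algebraMap ℚ K (a i)) hpowK
    (fun i => pint_rat hVB hp (a i) (hL.unit i))
  suffices h : z ∈ S from (hS z).1 h
  -- every element has coordinates
  have hbas : ∀ x : M, ∃ c : ((i : Fin r) → Fin (N i)) → K,
      x = ∑ j, algebraMap K M (c j) * ∏ i, θ i ^ (j i : ℕ) := by
    intro x
    have hcard : Fintype.card ((i : Fin r) → Fin (N i)) = Module.finrank K M := by
      rw [hfr, Fintype.card_pi]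
      exact Finset.prod_congr rfl fun l _ => Fintype.card_fin _
    have hne : Nonempty ((i : Fin r) → Fin (N i)) := ⟨fun l => ⟨0, hN l⟩⟩
    have htop := LinearIndependent.span_eq_top_of_card_eq_finrank hL.ind hcard
    have hx : x ∈ Submodule.span K
        (Set.range fun j : (i : Fin r) → Fin (N i) => ∏ i, θ i ^ (j i : ℕ)) := by
      rw [htop]
      trivial
    rw [Submodule.mem_span_range_iff_exists_fun] at hx
    obtain ⟨c, hc⟩ := hx
    exact ⟨c, by rw [← hc]; exact Finset.sum_congr rfl fun j _ => Algebra.smul_def _ _⟩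
  by_cases hpl : ∃ w : FinitePlace M, w.1 (p : M) < 1
  swap
  · obtain ⟨c, hc⟩ := hbas z
    rw [hS]
    refine ⟨c, fun j v hv => ?_, hc⟩
    exfalso
    obtain ⟨w', k, hk, hw'⟩ := hEXTP K M v
    refine hpl ⟨w', ?_⟩
    have h1 := hw' (p : K)
    rw [map_natCast] at h1
    rw [h1]
    exact Real.rpow_lt_one (v.1.nonneg _) hv hk
  obtain ⟨w0, hw0⟩ := hpl
  -- the index
  obtain ⟨i, _, hi⟩ := (Prime.dvd_finsetProd_iff hp.prime N).1 hpN
  obtain ⟨k, m, hpm, hkm⟩ := Nat.exists_eq_pow_mul_and_not_dvd (hN i).ne' p hp.ne_one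
  have hk1 : 1 ≤ k := by
    by_contra hcon
    have h0 : k = 0 := by omega
    rw [hkm, h0, pow_zero, one_mul] at hi
    exact hpm hi
  have hk2 : p ^ k ∣ N i := ⟨m, hkm⟩
  have hk3 : ¬ p ^ (k + 1) ∣ N i := by
    rw [hkm, pow_succ]
    intro h
    exact hpm (Nat.dvd_of_mul_dvd_mul_left (pow_pos hp.pos k) h)
  obtain ⟨q, hq⟩ : ∃ q, q = p ^ k := ⟨_, rfl⟩
  have hq0 : 0 < q := by
    rw [hq]
    exact pow_pos hp.pos k
  obtain ⟨f, hf⟩ := hMXE M r a N θ hL.good hL.pow p i k hp hk1 hk2 hk3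
  obtain ⟨π, hπ⟩ : ∃ π : M, π = θ i - θ i ^ (p ^ k * p ^ f) := ⟨_, rfl⟩
  have hπw : ∀ w : FinitePlace M, w.1 (p : M) < 1 → w.1 π ^ q = w.1 (p : M) := by
    intro w hw
    rw [hπ, hq]
    exact hf w hw
  have hna : ∀ w : FinitePlace M, IsNonarchimedean w.1 := fun w x y => FinitePlace.add_le w x y
  have hP0 : ∀ w : FinitePlace M, 0 < w.1 (p : M) := by
    intro w
    apply w.1.pos
    exact_mod_cast hp.ne_zero
  -- the subfield
  obtain ⟨M1, hM1⟩ : ∃ M1 : IntermediateField K M, M1 = IntermediateField.adjoin K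
      (insert (θ i ^ (p ^ k)) {z | ∃ l, l ≠ i ∧ z = θ l}) := ⟨_, rfl⟩
  have hunv : ∀ w : FinitePlace M, w.1 (p : M) < 1 → ∀ x ∈ M1, x ≠ 0 →
      ∃ n : ℤ, w.1 x = w.1 (p : M) ^ n := by
    intro w hw x hx hx0
    rw [hM1] at hx
    exact hUNV K M r a N θ p hL i k hk1 hk2 hk3 w hw x hx hx0
  obtain ⟨e, he⟩ : ∃ e : Fin r → ℕ, ∀ l, e l = if l = i then q else 1 := ⟨_, fun _ => rfl⟩
  have he0 : ∀ l, 0 < e l := by
    intro l
    rw [he]
    split_ifs
    · exact hq0
    · exact one_pos
  have heN : ∀ l, e l ∣ N l := by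
    intro l
    rw [he]
    split_ifs with h
    · rw [h, hq]
      exact hk2
    · exact one_dvd _
  have hmem : ∀ l, θ l ^ e l ∈ M1 := by
    intro l
    rw [he, hM1]
    split_ifs with h
    · rw [h, hq]
      exact IntermediateField.subset_adjoin _ _ (Set.mem_insert _ _)
    · rw [pow_one]
      exact IntermediateField.subset_adjoin _ _ (Set.mem_insert_of_mem _ ⟨l, h, rfl⟩)
  obtain ⟨θ1, hθ1⟩ : ∃ θ1 : Fin r → M1, ∀ l, (θ1 l : M) = θ l ^ e l :=
    ⟨fun l => ⟨_, hmem l⟩, fun l => rfl⟩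
  obtain ⟨N1, hN1⟩ : ∃ N1 : Fin r → ℕ, ∀ l, N1 l * e l = N l :=
    ⟨fun l => N l / e l, fun l => Nat.div_mul_cancel (heN l)⟩
  have hN10 : ∀ l, 0 < N1 l := by
    intro l
    refine Nat.pos_of_ne_zero fun h => ?_
    have h1 := hN1 l
    rw [h, zero_mul] at h1
    exact (hN l).ne h1
  have hprod : (∏ l, N1 l) * q = ∏ l, N l := by
    have h1 : ∏ l, e l = q := by
      rw [Finset.prod_eq_single i]
      · rw [he, if_pos rfl]
      · intro l _ hl
        rw [he, if_neg hl]
      · intro h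
        exact absurd (Finset.mem_univ _) h
    rw [← h1, ← Finset.prod_mul_distrib]
    exact Finset.prod_congr rfl fun l _ => hN1 l
  have hpN1 : ¬ p ∣ ∏ l, N1 l := by
    rw [Prime.dvd_finsetProd_iff hp.prime]
    rintro ⟨l, _, hl⟩
    by_cases hli : l = i
    · have h1 := hN1 l
      rw [he, if_pos hli, hli, hkm, hq, mul_comm] at h1
      have h2 : N1 i = m := Nat.eq_of_mul_eq_mul_left (pow_pos hp.pos k) h1
      rw [hli, h2] at hl
      exact hpm hl
    · have h1 := hN1 l
      rw [he, if_neg hli, mul_one] at h1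
      rw [h1] at hl
      exact Nat.not_coprime_of_dvd_of_dvd hp.one_lt hl hi (hL.good.cop l i hli)
  have hInd1 : Ind K θ1 N1 := by
    obtain ⟨φ, hφ⟩ : ∃ φ : ((l : Fin r) → Fin (N1 l)) → ((l : Fin r) → Fin (N l)),
        ∀ j l, ((φ j l : ℕ)) = e l * (j l : ℕ) := by
      refine ⟨fun j l => ⟨e l * (j l : ℕ), ?_⟩, fun j l => rfl⟩
      rw [← hN1 l, mul_comm]
      exact Nat.mul_lt_mul_of_pos_right (j l).2 (he0 l)
    have hφi : Function.Injective φ := by
      intro j j' h
      funext l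
      apply Fin.ext
      have h1 : ((φ j l : ℕ)) = (φ j' l : ℕ) := by rw [h]
      rw [hφ, hφ] at h1
      exact Nat.eq_of_mul_eq_mul_left (he0 l) h1
    have h1 := hL.ind.comp φ hφi
    have h2 : LinearIndependent K (M1.val.toLinearMap ∘
        (fun j : (l : Fin r) → Fin (N1 l) => ∏ l, θ1 l ^ (j l : ℕ))) := by
      have e1 : M1.val.toLinearMap ∘
          (fun j : (l : Fin r) → Fin (N1 l) => ∏ l, θ1 l ^ (j l : ℕ)) =
          (fun j : (l : Fin r) → Fin (N l) => ∏ l, θ l ^ (j l : ℕ)) ∘ φ := by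
        funext j
        have e2 : (M1.val.toLinearMap ∘
            (fun j : (l : Fin r) → Fin (N1 l) => ∏ l, θ1 l ^ (j l : ℕ))) j =
            M1.val (∏ l, θ1 l ^ (j l : ℕ)) := rfl
        have e3 : ((fun j : (l : Fin r) → Fin (N l) => ∏ l, θ l ^ (j l : ℕ)) ∘ φ) j =
            ∏ l, θ l ^ (φ j l : ℕ) := rfl
        rw [e2, e3, map_prod]
        refine Finset.prod_congr rfl fun l _ => ?_
        rw [map_pow, hφ, pow_mul, ← hθ1]
        rfl
      rw [e1]
      exact h1
    exact LinearIndependent.of_comp _ h2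
  have hpow1 : ∀ l, θ1 l ^ N1 l = algebraMap ℚ M1 (a l) := by
    intro l
    apply Subtype.ext
    have e1 : ((θ1 l ^ N1 l : M1) : M) = (θ1 l : M) ^ N1 l := rfl
    have e2 : ((algebraMap ℚ M1 (a l) : M1) : M) = algebraMap ℚ M (a l) := by
      have e3 : ((algebraMap ℚ M1 (a l) : M1) : M) = M1.val (algebraMap ℚ M1 (a l)) := rfl
      rw [e3]
      simp only [eq_ratCast, map_ratCast]
    rw [e1, e2, hθ1, ← pow_mul, mul_comm, hN1, hL.pow]
  have hfr1 : Module.finrank K M1 = ∏ l, N1 l := by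
    have h1 : ∏ l, N1 l ≤ Module.finrank K M1 := by
      have h := hInd1.fintype_card_le_finrank
      rw [Fintype.card_pi] at h
      refine le_trans (le_of_eq ?_) h
      exact Finset.prod_congr rfl fun l _ => (Fintype.card_fin _).symm
    have h2 : q ≤ Module.finrank M1 M := by
      have hli : LinearIndependent M1 (fun t : Fin q => π ^ (t : ℕ)) := by
        rw [Fintype.linearIndependent_iff]
        intro c hc t
        have h3 := (vals w0.1 (hna w0) (hP0 w0) hw0 hq0 (hπw w0 hw0) (fun t => (c t : M))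
          (fun t ht => hunv w0 hw0 _ (c t).2 ht) t).1
        have h4 : ∑ s, (c s : M) * π ^ (s : ℕ) = 0 := by
          rw [← hc]
          exact Finset.sum_congr rfl fun s _ => rfl
        rw [h4, map_zero] at h3
        have h5 : w0.1 ((c t : M) * π ^ (t : ℕ)) = 0 := le_antisymm h3 (w0.1.nonneg _)
        rw [AbsoluteValue.eq_zero, mul_eq_zero] at h5
        rcases h5 with h5 | h5
        · exact Subtype.ext h5
        · exfalso
          have h6 : π = 0 := eq_zero_of_pow_eq_zero h5
          have h7 := hπw w0 hw0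
          rw [h6, map_zero, zero_pow hq0.ne'] at h7
          exact (hP0 w0).ne h7
      have h := hli.fintype_card_le_finrank
      rwa [Fintype.card_fin] at h
    have h3 := Module.finrank_mul_finrank K M1 M
    rw [hfr, ← hprod] at h3
    refine le_antisymm ?_ h1
    have h4 : Module.finrank K M1 * q ≤ (∏ l, N1 l) * q := by
      rw [← h3]
      exact Nat.mul_le_mul_left _ h2
    exact Nat.le_of_mul_le_mul_right h4 hq0
  -- expansion in powers of `π`
  have hexp : ∀ x : M, x ∈ Submodule.span M1 (Set.range fun t : Fin q => π ^ (t : ℕ)) := by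
    obtain ⟨A, hA⟩ : ∃ A : M, A = (θ i ^ q) ^ (p ^ f) := ⟨_, rfl⟩
    have hAm : A ∈ M1 := by
      have h1 := hmem i
      rw [he, if_pos rfl] at h1
      rw [hA]
      exact pow_mem h1 _
    have hθi : θ i = π + A := by
      rw [hπ, hA, ← pow_mul, hq]
      ring
    have h1 : ∀ s < q, θ i ^ s ∈ Submodule.span M1 (Set.range fun t : Fin q => π ^ (t : ℕ)) := by
      intro s hs
      rw [hθi, add_pow]
      refine Submodule.sum_mem _ fun t ht => ?_
      have ht' : t < q := lt_of_le_of_lt (Nat.lt_succ_iff.1 (Finset.mem_range.1 ht)) hs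
      have hm : A ^ (s - t) * (s.choose t : M) ∈ M1 :=
        mul_mem (pow_mem hAm _) (natCast_mem M1 _)
      have e1 : π ^ t * A ^ (s - t) * (s.choose t : M) =
          (⟨A ^ (s - t) * (s.choose t : M), hm⟩ : M1) • π ^ t := by
        rw [Algebra.smul_def]
        have e2 : algebraMap M1 M (⟨A ^ (s - t) * (s.choose t : M), hm⟩ : M1) =
          A ^ (s - t) * (s.choose t : M) := rfl
        rw [e2]
        ring
      rw [e1]
      exact Submodule.smul_mem _ _ (Submodule.subset_span ⟨⟨t, ht'⟩, rfl⟩)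
    intro x
    obtain ⟨c, rfl⟩ := hbas x
    refine Submodule.sum_mem _ fun j _ => ?_
    have hm : algebraMap K M (c j) * ∏ l, (θ l ^ e l) ^ ((j l : ℕ) / e l) ∈ M1 :=
      mul_mem (M1.algebraMap_mem _) (prod_mem fun l _ => pow_mem (hmem l) _)
    have e2 : algebraMap K M (c j) * ∏ l, θ l ^ (j l : ℕ) =
        (⟨algebraMap K M (c j) * ∏ l, (θ l ^ e l) ^ ((j l : ℕ) / e l), hm⟩ : M1) •
          θ i ^ ((j i : ℕ) % q) := by
      rw [Algebra.smul_def]
      have e3 : algebraMap M1 M
          (⟨algebraMap K M (c j) * ∏ l, (θ l ^ e l) ^ ((j l : ℕ) / e l), hm⟩ : M1) =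
          algebraMap K M (c j) * ∏ l, (θ l ^ e l) ^ ((j l : ℕ) / e l) := rfl
      have e4 : θ i ^ ((j i : ℕ) % q) = ∏ l, θ l ^ ((j l : ℕ) % e l) := by
        rw [Finset.prod_eq_single i]
        · rw [he, if_pos rfl]
        · intro l _ hl
          rw [he, if_neg hl, Nat.mod_one, pow_zero]
        · intro h
          exact absurd (Finset.mem_univ _) h
      rw [e3, e4, mul_assoc, ← Finset.prod_mul_distrib]
      refine congrArg _ (Finset.prod_congr rfl fun l _ => ?_)
      rw [← pow_mul, ← pow_add, Nat.div_add_mod]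
    rw [e2]
    exact Submodule.smul_mem _ _ (h1 _ (Nat.mod_lt _ hq0))
  obtain ⟨c, hc⟩ := (Submodule.mem_span_range_iff_exists_fun M1).1 (hexp z)
  have hc' : ∑ t, (c t : M) * π ^ (t : ℕ) = z := by
    rw [← hc]
    exact Finset.sum_congr rfl fun s _ => rfl
  have hcint : ∀ t, PInt M1 p (c t) := by
    intro t v hv
    obtain ⟨w, k', hk', hw⟩ := hEXTP M1 M v
    have h1 := hw (p : M1)
    rw [map_natCast] at h1
    have hwp : w.1 (p : M) < 1 := by
      rw [h1]
      exact Real.rpow_lt_one (v.1.nonneg _) hv hk'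
    have h2 : w.1 (c t : M) ≤ 1 := by
      refine (vals w.1 (hna w) (hP0 w) hwp hq0 (hπw w hwp) (fun t => (c t : M))
        (fun t ht => hunv w hwp _ (c t).2 ht) t).2 ?_
      rw [hc']
      exact hz w hwp
    have h3 : w.1 (c t : M) = (v.1 (c t)) ^ k' := hw (c t)
    rw [h3] at h2
    by_contra hcon
    push Not at hcon
    have := Real.one_lt_rpow hcon hk'
    linarith
  rw [← hc']
  refine S.sum_mem fun t _ => S.mul_mem ?_ (S.pow_mem ?_ _)
  · obtain ⟨d, hd, hcd⟩ := hTRG K M1 r a N1 θ1 p hp hL.good.nz hN10 hL.unit hpow1 hInd1 hfr1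
      (c t) (hcint t)
    have e1 : (c t : M) = ∑ j : (l : Fin r) → Fin (N1 l),
        algebraMap K M (d j) * ∏ l, (θ l ^ e l) ^ (j l : ℕ) := by
      have e2 : (c t : M) = M1.val (c t) := rfl
      rw [e2, hcd, map_sum]
      refine Finset.sum_congr rfl fun j _ => ?_
      rw [map_mul, map_prod]
      refine congrArg₂ (· * ·) rfl (Finset.prod_congr rfl fun l _ => ?_)
      rw [map_pow, ← hθ1]
      rfl
    rw [e1]
    refine S.sum_mem fun j _ => S.mul_mem (hSK _ ?_)
      (S.prod_mem fun l _ => S.pow_mem (S.pow_mem (hSθ l) _) _)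
    intro v hv
    have h1 := hd j v hv
    rw [map_mul, (hVB K p hp v hv).2.2.2.1 _ hpN1, one_mul] at h1
    exact h1
  · rw [hπ]
    exact S.sub_mem (hSθ i) (S.pow_mem (hSθ i) _)

end Pool.Agent.H35.GG
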