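import Pool.Agent.H64.GG.TC
import Pool.Agent.H18.LG.NUK

set_option autoImplicit false

/-!
# MP_c65535_nt, good radicals, all degrees, row NUG: choice of the parameters
-/

namespace Pool.Agent.H35.GG

open NumberField Height Finset Polynomial Pool.Agent.H24.RD Pool.Agent.H23.RDD Pool.Agent.H29.RQ
  Pool.Agent.H29.SX Pool.Agent.H29.LG Pool.Agent.H64.GG Pool.Agent.H18.LG Filter

theorem nug_a (E m : ℝ) (hm : 0 < m) : ∃ a : ℕ, 1 ≤ a ∧ 3 * (E + m * Real.log (a + 1)) < a := by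
  have h1 := Real.isLittleO_log_id_atTop.def (show (0 : ℝ) < 1 / (6 * m) by positivity)
  obtain ⟨x0, hx0⟩ := eventually_atTop.1 h1
  obtain ⟨a, ha⟩ := exists_nat_gt (max (max x0 (6 * |E| + 2)) 1)
  have h2 : x0 < a := lt_of_le_of_lt ((le_max_left _ _).trans (le_max_left _ _)) ha
  have h3 : 6 * |E| + 2 < a := lt_of_le_of_lt ((le_max_right _ _).trans (le_max_left _ _)) ha
  have h4 : (1 : ℝ) < a := lt_of_le_of_lt (le_max_right _ _) ha
  refine ⟨a, by exact_mod_cast h4.le, ?_⟩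
  have h5 := hx0 ((a : ℝ) + 1) (by linarith)
  rw [Real.norm_eq_abs, Real.norm_eq_abs, id, abs_of_pos (show (0 : ℝ) < (a : ℝ) + 1 by linarith)]
    at h5
  have h6 : Real.log ((a : ℝ) + 1) ≤ 1 / (6 * m) * ((a : ℝ) + 1) := (le_abs_self _).trans h5
  have h7 : m * Real.log ((a : ℝ) + 1) ≤ ((a : ℝ) + 1) / 6 := by
    calc m * Real.log ((a : ℝ) + 1) ≤ m * (1 / (6 * m) * ((a : ℝ) + 1)) :=
          mul_le_mul_of_nonneg_left h6 hm.le
      _ = ((a : ℝ) + 1) / 6 := by field_simp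
  have h8 : E ≤ |E| := le_abs_self E
  linarith

theorem add_pow_le' (x y : ℝ) (hx : 0 ≤ x) (hy : 0 ≤ y) (k : ℕ) :
    (x + y) ^ k ≤ (2 * x) ^ k + (2 * y) ^ k := by
  rcases le_total x y with h | h
  · have h1 : (x + y) ^ k ≤ (2 * y) ^ k := pow_le_pow_left₀ (by linarith) (by linarith) k
    have h2 : 0 ≤ (2 * x) ^ k := by positivity
    linarith
  · have h1 : (x + y) ^ k ≤ (2 * x) ^ k := pow_le_pow_left₀ (by linarith) (by linarith) k
    have h2 : 0 ≤ (2 * y) ^ k := by positivity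
    linarith

theorem nug_tr (a : ℝ) (k : ℕ) (ha : 0 ≤ a) : ∃ c : ℝ, 0 < c ∧ c ≤ 1 ∧ ∀ (d : ℕ) (lam : ℝ),
    0 < d → 0 < lam → lam * d * (Real.log (3 * d)) ^ k < c →
    lam * d * (a * (Real.log (3 + d / lam)) ^ k) < 1 := by
  have hε : (0 : ℝ) < 1 / (16 * (a + 1) * 2 ^ k) := by positivity
  have h1 := (Real.isLittleO_pow_log_id_atTop (n := k)).def hε
  obtain ⟨x0, hx0⟩ := eventually_atTop.1 h1
  have hm : (0 : ℝ) < max x0 1 := lt_of_lt_of_le one_pos (le_max_right _ _)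
  refine ⟨min (min 1 (1 / max x0 1)) (1 / (4 * (a + 1) * 4 ^ k)), by positivity,
    (min_le_left _ _).trans (min_le_left _ _), ?_⟩
  intro d lam hd hlam h
  have hc1 : lam * d * (Real.log (3 * d)) ^ k < 1 / max x0 1 :=
    lt_of_lt_of_le h ((min_le_left _ _).trans (min_le_right _ _))
  have hc2 : lam * d * (Real.log (3 * d)) ^ k < 1 / (4 * (a + 1) * 4 ^ k) :=
    lt_of_lt_of_le h (min_le_right _ _)
  have hdr : (1 : ℝ) ≤ d := by exact_mod_cast hd
  obtain ⟨w, hw⟩ : ∃ w, w = Real.log (3 * d) := ⟨_, rfl⟩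
  have hw1 : 1 ≤ w := by
    have h2 := nuk_log3
    have h3 : Real.log 3 ≤ Real.log (3 * d) := Real.log_le_log (by norm_num) (by linarith)
    rw [hw]
    linarith
  rw [← hw] at hc1 hc2
  have hwk : 1 ≤ w ^ k := one_le_pow₀ hw1
  have hld : 0 < lam * d := by positivity
  obtain ⟨z, hz⟩ : ∃ z, z = 1 / (lam * d) := ⟨_, rfl⟩
  have hz0 : 0 < z := by
    rw [hz]
    positivity
  have hzl : lam * d * z = 1 := by
    rw [hz]
    field_simp
  have hzx : max x0 1 ≤ z := by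
    have h2 : lam * d < 1 / max x0 1 := by
      refine lt_of_le_of_lt ?_ hc1
      exact le_mul_of_one_le_right hld.le hwk
    rw [lt_div_iff₀ hm] at h2
    rw [hz, le_div_iff₀ hld]
    linarith
  have hz1 : 1 ≤ z := (le_max_right _ _).trans hzx
  have hzx0 : x0 ≤ 3 + z := by
    have := (le_max_left x0 1).trans hzx
    linarith
  -- the logarithm
  have hlogz : 0 ≤ Real.log (3 + z) := Real.log_nonneg (by linarith)
  have hL : Real.log (3 + d / lam) ≤ Real.log (3 + z) + 2 * w := by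
    have e1 : (d : ℝ) / lam = z * d ^ 2 := by
      rw [hz]
      field_simp
    have h2 : 3 + (d : ℝ) / lam ≤ (3 + z) * (3 * d) ^ 2 := by
      rw [e1]
      have h3 : (1 : ℝ) ≤ d ^ 2 := one_le_pow₀ hdr
      nlinarith [mul_nonneg hz0.le (show (0 : ℝ) ≤ (d : ℝ) ^ 2 by positivity)]
    have h4 := Real.log_le_log (by positivity) h2
    rw [Real.log_mul (by positivity) (by positivity), Real.log_pow, ← hw] at h4
    exact_mod_cast h4
  have hL0 : 0 ≤ Real.log (3 + d / lam) := Real.log_nonneg (by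
    have : 0 ≤ (d : ℝ) / lam := by positivity
    linarith)
  have hLk : Real.log (3 + d / lam) ^ k ≤
      (2 * Real.log (3 + z)) ^ k + (2 * (2 * w)) ^ k :=
    (pow_le_pow_left₀ hL0 hL k).trans (add_pow_le' _ _ hlogz (by linarith) k)
  have h5 : Real.log (3 + z) ^ k ≤ 1 / (16 * (a + 1) * 2 ^ k) * (3 + z) := by
    have := hx0 (3 + z) hzx0
    rw [Real.norm_eq_abs, Real.norm_eq_abs, id, abs_of_nonneg (pow_nonneg hlogz k),
      abs_of_pos (by linarith)] at this
    exact this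
  have h6 : a * (2 * Real.log (3 + z)) ^ k ≤ z / 4 := by
    rw [mul_pow]
    calc a * (2 ^ k * Real.log (3 + z) ^ k)
        ≤ (a + 1) * (2 ^ k * (1 / (16 * (a + 1) * 2 ^ k) * (4 * z))) := by
          refine mul_le_mul (by linarith) ?_ (by positivity) (by linarith)
          refine mul_le_mul_of_nonneg_left (h5.trans ?_) (by positivity)
          exact mul_le_mul_of_nonneg_left (by linarith) hε.le
      _ = z / 4 := by
          field_simp
          ring
  have h7 : a * (2 * (2 * w)) ^ k ≤ z / 4 := by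
    have e1 : (2 * (2 * w)) ^ k = 4 ^ k * w ^ k := by
      rw [← mul_pow]
      ring
    rw [e1]
    have h8 : w ^ k ≤ z * (1 / (4 * (a + 1) * 4 ^ k)) := by
      have h9 := mul_le_mul_of_nonneg_left hc2.le hz0.le
      have e2 : z * (lam * d * w ^ k) = w ^ k := by
        calc z * (lam * d * w ^ k) = (lam * d * z) * w ^ k := by ring
          _ = w ^ k := by rw [hzl, one_mul]
      rwa [e2] at h9
    calc a * (4 ^ k * w ^ k) ≤ (a + 1) * (4 ^ k * (z * (1 / (4 * (a + 1) * 4 ^ k)))) := by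
          refine mul_le_mul (by linarith) ?_ (by positivity) (by linarith)
          exact mul_le_mul_of_nonneg_left h8 (by positivity)
      _ = z / 4 := by
          field_simp
  have h8 : a * Real.log (3 + d / lam) ^ k ≤ z / 2 := by
    have := mul_le_mul_of_nonneg_left hLk ha
    rw [mul_add] at this
    linarith
  calc lam * d * (a * Real.log (3 + d / lam) ^ k) ≤ lam * d * (z / 2) :=
        mul_le_mul_of_nonneg_left h8 hld.le
    _ = (lam * d * z) / 2 := by ring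
    _ < 1 := by
        rw [hzl]
        norm_num

theorem nug_ineq (r s t d : ℕ) (L a1 B lam ρ W : ℝ) (hL : 1 ≤ L) (ht1 : 1 ≤ t)
    (hs : s = t ^ (r + 2)) (hta : a1 * L ^ 2 ≤ t) (hd : 0 < d) (hld : Real.log d ≤ L)
    (hW : 0 ≤ W) (hlt : Real.log t ≤ W * L) (hB : 1 ≤ B) (hdl0 : 0 ≤ d * lam)
    (hdl : d * lam ≤ 1) (hZ : Real.log (1 + ρ / lam) ≤ L) (hZ0 : 0 ≤ Real.log (1 + ρ / lam))
    (hρ1 : 2 * (r + 1) * ρ ≤ 1) (hρ0 : 0 ≤ ρ)
    (ha1 : 3 * (5 + (r + 2) * W + 4 * (r + 1) * (1 + B)) < a1) (R d0 r0 : ℕ) (hr0 : 1 ≤ r0)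
    (hd0 : d0 ≤ t ^ (r + 1) * r0) (hR : d0 + s * r0 ≤ R) :
    R * (Real.log ((t ^ (r + 1) + s) * d) / 2 + 2 * (r + 1) * (d * lam + B)) +
        d0 * (t * Real.log (1 + ρ / lam) + 2 * (r + 1) * ρ) <
      ((R : ℝ) - d0) * (t * (1 / (3 * L)) - 1) := by
  have htpos : 0 < t := ht1
  have hs1 : 1 ≤ s := by
    rw [hs]
    exact Nat.one_le_pow _ _ htpos
  -- `D = R - d0`
  obtain ⟨D, hD⟩ : ∃ D : ℕ, R = d0 + D := ⟨R - d0, by omega⟩
  have hsD : s * r0 ≤ D := by omega
  have hD1 : 1 ≤ D := le_trans (Nat.mul_pos hs1 hr0) hsD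
  have htd : t * d0 ≤ D := by
    refine le_trans ?_ hsD
    calc t * d0 ≤ t * (t ^ (r + 1) * r0) := Nat.mul_le_mul_left _ hd0
      _ = s * r0 := by
        rw [hs]
        ring
  have hdD : d0 ≤ D := le_trans (Nat.le_mul_of_pos_left d0 htpos) htd
  have hDr : (1 : ℝ) ≤ D := by exact_mod_cast hD1
  have htdr : (t : ℝ) * d0 ≤ D := by exact_mod_cast htd
  have hdDr : (d0 : ℝ) ≤ D := by exact_mod_cast hdD
  have hd00 : (0 : ℝ) ≤ d0 := Nat.cast_nonneg _
  have hRr : (R : ℝ) = d0 + D := by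
    rw [hD]
    push_cast
    ring
  have hR2 : (R : ℝ) ≤ 2 * D := by linarith
  have hR1 : (1 : ℝ) ≤ R := by linarith
  have htr : (1 : ℝ) ≤ t := by exact_mod_cast ht1
  have hdr : (1 : ℝ) ≤ d := by exact_mod_cast hd
  have hrr : (0 : ℝ) ≤ r := Nat.cast_nonneg r
  have hlog : Real.log ((t ^ (r + 1) + s) * d) ≤ (2 + (r + 2) * W) * L := by
    have h1 : ((t : ℝ) ^ (r + 1) + s) * d ≤ 2 * (t : ℝ) ^ (r + 2) * d := by
      refine mul_le_mul_of_nonneg_right ?_ (by linarith)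
      rw [hs]
      push_cast
      have h2 : (t : ℝ) ^ (r + 1) ≤ (t : ℝ) ^ (r + 2) := pow_le_pow_right₀ htr (by omega)
      linarith
    have ht0 : (0 : ℝ) < t := by linarith
    have hd0' : (0 : ℝ) < d := by linarith
    have hs0 : (0 : ℝ) ≤ s := Nat.cast_nonneg _
    have h3 : Real.log (((t : ℝ) ^ (r + 1) + s) * d) ≤ Real.log (2 * (t : ℝ) ^ (r + 2) * d) :=
      Real.log_le_log (by positivity) h1
    have e0 : Real.log (2 * (t : ℝ) ^ (r + 2) * d) =
        Real.log 2 + ((r + 2 : ℕ) : ℝ) * Real.log t + Real.log d := by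
      rw [Real.log_mul (by positivity) (by positivity), Real.log_mul (by norm_num) (by positivity),
        Real.log_pow]
    rw [e0] at h3
    have h4 : Real.log 2 ≤ 1 := by
      have := Real.log_two_lt_d9
      linarith
    have h5 : ((r + 2 : ℕ) : ℝ) * Real.log t ≤ ((r + 2 : ℕ) : ℝ) * (W * L) :=
      mul_le_mul_of_nonneg_left hlt (Nat.cast_nonneg _)
    push_cast at h3 h5
    linarith
  have hY0 : 0 ≤ (2 + (r + 2) * W) * L := by positivity
  have e1 : (R : ℝ) * (Real.log ((t ^ (r + 1) + s) * d) / 2) ≤ D * ((2 + (r + 2) * W) * L) := by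
    calc (R : ℝ) * (Real.log ((t ^ (r + 1) + s) * d) / 2)
        ≤ R * ((2 + (r + 2) * W) * L / 2) :=
          mul_le_mul_of_nonneg_left (by linarith) (by linarith)
      _ ≤ (2 * D) * ((2 + (r + 2) * W) * L / 2) :=
          mul_le_mul_of_nonneg_right hR2 (by linarith)
      _ = D * ((2 + (r + 2) * W) * L) := by ring
  have e2 : (R : ℝ) * (2 * (r + 1) * (d * lam + B)) ≤ D * (4 * (r + 1) * (1 + B) * L) := by
    calc (R : ℝ) * (2 * (r + 1) * (d * lam + B)) ≤ R * (2 * (r + 1) * (1 + B)) := by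
          refine mul_le_mul_of_nonneg_left ?_ (by linarith)
          exact mul_le_mul_of_nonneg_left (by linarith) (by positivity)
      _ ≤ (2 * D) * (2 * (r + 1) * (1 + B)) :=
          mul_le_mul_of_nonneg_right hR2 (by positivity)
      _ = D * (4 * (r + 1) * (1 + B)) := by ring
      _ ≤ D * (4 * (r + 1) * (1 + B) * L) := by
          refine mul_le_mul_of_nonneg_left ?_ (by linarith)
          exact le_mul_of_one_le_right (by positivity) hL
  have e3 : (d0 : ℝ) * (t * Real.log (1 + ρ / lam)) ≤ D * L := by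
    calc (d0 : ℝ) * (t * Real.log (1 + ρ / lam)) = (t * d0) * Real.log (1 + ρ / lam) := by ring
      _ ≤ D * L := mul_le_mul htdr hZ hZ0 (by linarith)
  have e4 : (d0 : ℝ) * (2 * (r + 1) * ρ) ≤ D * L :=
    mul_le_mul hdDr (hρ1.trans hL) (by positivity) (by linarith)
  have e5 : (R : ℝ) - d0 = D := by linarith
  rw [e5]
  have h5 : (5 + (r + 2) * W + 4 * (r + 1) * (1 + B)) * L < t * (1 / (3 * L)) := by
    rw [mul_one_div, lt_div_iff₀ (by linarith)]
    have h6 : (5 + (r + 2) * W + 4 * (r + 1) * (1 + B)) * L * (3 * L) =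
        3 * (5 + (r + 2) * W + 4 * (r + 1) * (1 + B)) * L ^ 2 := by ring
    rw [h6]
    refine lt_of_lt_of_le ?_ hta
    exact mul_lt_mul_of_pos_right ha1 (by positivity)
  have h6 : (4 + (r + 2) * W + 4 * (r + 1) * (1 + B)) * L < t * (1 / (3 * L)) - 1 := by
    have e6 : (5 + (r + 2) * W + 4 * (r + 1) * (1 + B)) * L =
        (4 + (r + 2) * W + 4 * (r + 1) * (1 + B)) * L + L := by ring
    linarith
  have h7 : (D : ℝ) * ((4 + (r + 2) * W + 4 * (r + 1) * (1 + B)) * L) <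
      D * (t * (1 / (3 * L)) - 1) := mul_lt_mul_of_pos_left h6 (by linarith)
  have e7 : (R : ℝ) * (Real.log ((t ^ (r + 1) + s) * d) / 2 + 2 * (r + 1) * (d * lam + B)) +
        d0 * (t * Real.log (1 + ρ / lam) + 2 * (r + 1) * ρ) =
      R * (Real.log ((t ^ (r + 1) + s) * d) / 2) + R * (2 * (r + 1) * (d * lam + B)) +
      (d0 * (t * Real.log (1 + ρ / lam)) + d0 * (2 * (r + 1) * ρ)) := by ring
  have e8 : (D : ℝ) * ((4 + (r + 2) * W + 4 * (r + 1) * (1 + B)) * L) =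
      D * ((2 + (r + 2) * W) * L) + D * (4 * (r + 1) * (1 + B) * L) + (D * L + D * L) := by ring
  rw [e7]
  linarith

theorem pf_NUG : T_NUG := by
  intro r CP Y0 B c₃ hB hc₃
  have hrr : (0 : ℝ) ≤ r := Nat.cast_nonneg r
  -- the constants
  obtain ⟨a1, ha11, ha1⟩ := nug_a (5 + (r + 2) * 2 + 4 * (r + 1) * (1 + B)) (r + 2)
    (by positivity)
  have hr1 : (0 : ℝ) < 2 * (r + 1) := by positivity
  have hbig : Tm (fun L l => 2 * (pY r CP Y0 a1 L l : ℝ) ^ 2 +
      (2 * ((r : ℝ) + 1)) ^ (r + 1) * pI r 1 CP Y0 a1 L l ^ (r + 1) / c₃) := by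
    refine tm_add (tm_mul (tm_const 2 (by norm_num)) (tm_pow (tm_Y r CP Y0 a1) 2)) ?_
    have h := tm_mul (tm_mul (tm_const ((2 * ((r : ℝ) + 1)) ^ (r + 1)) (by positivity))
      (tm_pow (tm_I r 1 CP Y0 a1) (r + 1))) (tm_const (1 / c₃) (by positivity))
    refine tm_mono h ?_
    intro L l hL hl
    obtain ⟨b, k, hb, hv⟩ := h
    have h1 := (hv L l hL hl).1
    simp only [mul_one_div] at h1
    refine ⟨h1, ?_⟩
    simp only [mul_one_div, le_refl]
  obtain ⟨a, k, ha, hak⟩ := hbig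
  obtain ⟨c, hc0, hc1, hctr⟩ := nug_tr a k ha
  refine ⟨c, k, hc0, ?_⟩
  intro d lam hd hlam hsmall
  have hsm := hctr d lam hd hlam hsmall
  have hdr : (1 : ℝ) ≤ d := by exact_mod_cast hd
  have hdl : d * lam ≤ 1 := by
    have h1 : 1 ≤ Real.log (3 * d) := by
      have h2 := nuk_log3
      have h3 : Real.log 3 ≤ Real.log (3 * d) := Real.log_le_log (by norm_num) (by linarith)
      linarith
    have h2 : lam * d ≤ lam * d * Real.log (3 * d) ^ k :=
      le_mul_of_one_le_right (by positivity) (one_le_pow₀ h1)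
    linarith
  have hdl0 : 0 < d * lam := by positivity
  have hlam1 : lam ≤ 1 := by
    have : lam ≤ d * lam := le_mul_of_one_le_left hlam.le hdr
    linarith
  set L : ℝ := Real.log (3 + d / lam) with hLdef
  have hdlp : 0 < (d : ℝ) / lam := by positivity
  have hdlam : (d : ℝ) ≤ d / lam := by
    rw [le_div_iff₀ hlam]
    nlinarith
  have hL1 : 1 ≤ L := by
    have h1 := nuk_log3
    have h2 : Real.log 3 ≤ L := Real.log_le_log (by norm_num) (by linarith)
    linarith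
  have hld : Real.log d ≤ L := Real.log_le_log (by linarith) (by linarith)
  have hlogd : (Nat.log 2 d : ℝ) ≤ 2 * L := by
    have h1 : (2 : ℝ) ^ (Nat.log 2 d) ≤ d := by exact_mod_cast Nat.pow_log_le_self 2 hd.ne'
    have h2 := Real.log_le_log (by positivity) h1
    rw [Real.log_pow] at h2
    have h3 := Real.log_two_gt_d9
    have h4 : (0 : ℝ) ≤ Nat.log 2 d := Nat.cast_nonneg _
    nlinarith
  set l := Nat.log 2 d with hl
  obtain ⟨hbig0, hbig1⟩ := hak L l hL1 hlogd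
  have hY0 : (0 : ℝ) ≤ 2 * (pY r CP Y0 a1 L l : ℝ) ^ 2 := by positivity
  -- the parameter `t`
  have hta : (a1 : ℝ) * L ^ 2 ≤ pT a1 L := Nat.le_ceil _
  have ha1r : (1 : ℝ) ≤ a1 := by exact_mod_cast ha11
  have hL2 : 1 ≤ L ^ 2 := one_le_pow₀ hL1
  have ht1 : 1 ≤ pT a1 L := by
    have : 0 < (a1 : ℝ) * L ^ 2 := by positivity
    exact Nat.ceil_pos.2 this
  have htr : (1 : ℝ) ≤ pT a1 L := by exact_mod_cast ht1
  have hlt : Real.log (pT a1 L) ≤ (Real.log (a1 + 1) + 2) * L := by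
    have h1 : (pT a1 L : ℝ) ≤ (a1 + 1) * L ^ 2 := by
      have h2 : (pT a1 L : ℝ) < a1 * L ^ 2 + 1 := Nat.ceil_lt_add_one (by positivity)
      nlinarith
    have h3 := Real.log_le_log (by linarith) h1
    rw [Real.log_mul (by positivity) (by positivity), Real.log_pow] at h3
    have h4 : Real.log L ≤ L := (Real.log_le_sub_one_of_pos (by linarith)).trans (by linarith)
    have h5 : 0 ≤ Real.log ((a1 : ℝ) + 1) := Real.log_nonneg (by linarith)
    have h6 : Real.log ((a1 : ℝ) + 1) ≤ Real.log ((a1 : ℝ) + 1) * L :=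
      le_mul_of_one_le_right h5 hL1
    push_cast at h3
    rw [add_mul]
    linarith
  have hW0 : 0 ≤ Real.log ((a1 : ℝ) + 1) + 2 := by
    have h5 : 0 ≤ Real.log ((a1 : ℝ) + 1) := Real.log_nonneg (by linarith)
    linarith
  have hQ1 : 1 ≤ pQ r 1 CP Y0 a1 L l := by
    unfold pQ
    exact one_le_pow₀ (by
      have : (0 : ℝ) ≤ pY r CP Y0 a1 L l := Nat.cast_nonneg _
      linarith)
  set Q := pQ r 1 CP Y0 a1 L l with hQ
  have hI0 : 0 < pI r 1 CP Y0 a1 L l := by
    unfold pI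
    have h2 : (0 : ℝ) ≤ pS r a1 L := Nat.cast_nonneg _
    positivity
  have hI2 : 0 ≤ (2 * ((r : ℝ) + 1)) ^ (r + 1) * pI r 1 CP Y0 a1 L l ^ (r + 1) / c₃ := by
    positivity
  have hS1 : 1 ≤ pS r a1 L := Nat.one_le_pow _ _ ht1
  have hρ1 : 2 * ((r : ℝ) + 1) * (1 / (2 * (r + 1) * Q)) = 1 / Q := by
    field_simp
  have hQinv : 1 / Q ≤ 1 := by
    rw [div_le_one (by linarith)]
    exact hQ1
  have hρle : 1 / (2 * ((r : ℝ) + 1) * Q) ≤ 1 := by
    rw [div_le_one (by positivity)]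
    nlinarith
  have hQρ : Q * (2 * ((r : ℝ) + 1) * (1 / (2 * (r + 1) * Q))) = 1 := by
    rw [hρ1]
    field_simp
  have hρ0 : 0 < 1 / (2 * ((r : ℝ) + 1) * Q) := by positivity
  have ha1' : 3 * (5 + ((r : ℝ) + 2) * (Real.log (a1 + 1) + 2) + 4 * (r + 1) * (1 + B)) < a1 := by
    refine lt_of_le_of_lt (le_of_eq ?_) ha1
    ring
  refine ⟨pS r a1 L, pT a1 L, pA Y0 L, pS r a1 L + l, 1 / (2 * (r + 1) * pI r 1 CP Y0 a1 L l),
    1 / (2 * (r + 1) * Q), Q, 1 / (3 * L), hS1, ht1, by positivity, hρ0, hρle, hQ1, ?_, ?_,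
    le_rfl, ?_, ?_, ?_, ?_, ?_⟩
  · unfold pA
    omega
  · unfold pA
    omega
  · -- the primes
    intro p hAp hpY
    have hpA : (20 : ℝ) + 4 * L ≤ p := by
      have h1 : (4 * L : ℝ) ≤ ⌈4 * L⌉₊ := Nat.le_ceil _
      have h2 : ((pA Y0 L : ℕ) : ℝ) < p := by exact_mod_cast hAp
      unfold pA at h2
      push_cast at h2
      have h3 : (0 : ℝ) ≤ Y0 := Nat.cast_nonneg _
      linarith
    have hp21 : (21 : ℝ) ≤ p := by linarith
    have hlp : (3 : ℝ) ≤ Real.log p := by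
      have h1 := nuk_log21
      have h2 := Real.log_le_log (by norm_num) hp21
      linarith
    have hpYr : (p : ℝ) ≤ pY r CP Y0 a1 L l := by exact_mod_cast hpY
    have hldp : Real.log (d * p) = Real.log d + Real.log p :=
      Real.log_mul (by linarith) (by linarith)
    have hld0 : 0 ≤ Real.log d := Real.log_nonneg hdr
    unfold dlt
    rw [hldp]
    obtain ⟨h1, h2⟩ := nuk_primes L (Real.log d) (Real.log p) p hL1 hld hlp hpA (by linarith)
    refine ⟨h1, ?_, ?_, h2⟩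
    · have h3 : (p : ℝ) ^ 2 ≤ (pY r CP Y0 a1 L l : ℝ) ^ 2 :=
        pow_le_pow_left₀ (by linarith) hpYr 2
      have h4 : 2 * (pY r CP Y0 a1 L l : ℝ) ^ 2 ≤ a * L ^ k := by linarith
      have h5 : lam * d * (2 * (p : ℝ) ^ 2) ≤ lam * d * (a * L ^ k) :=
        mul_le_mul_of_nonneg_left (by linarith) (by positivity)
      linarith
    · rw [hQ]
      unfold pQ
      rw [pow_one]
      linarith
  · -- `σ`
    have e1 : 64 * ((pT a1 L : ℝ) + pS r a1 L) * (r + 2) * Q ^ (r + 1) * Q =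
        pI r 1 CP Y0 a1 L l := by
      unfold pI
      rw [← hQ]
      ring
    rw [mul_one_div, div_le_div_iff₀ (by positivity) (by positivity), one_mul]
    have e2 : 64 * ((pT a1 L : ℝ) + pS r a1 L) * (r + 2) * Q ^ (r + 1) * (2 * (r + 1) * Q) =
        2 * (r + 1) * (64 * ((pT a1 L : ℝ) + pS r a1 L) * (r + 2) * Q ^ (r + 1) * Q) := by ring
    rw [e2, e1]
  · -- the number of the lattice points
    rw [lt_div_iff₀ hlam, one_div, inv_pow, mul_pow]
    have h1 : (2 * ((r : ℝ) + 1)) ^ (r + 1) * pI r 1 CP Y0 a1 L l ^ (r + 1) / c₃ ≤ a * L ^ k := by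
      linarith
    have h2 : lam * d * ((2 * ((r : ℝ) + 1)) ^ (r + 1) * pI r 1 CP Y0 a1 L l ^ (r + 1) / c₃) < 1 :=
      lt_of_le_of_lt (mul_le_mul_of_nonneg_left h1 (by positivity)) hsm
    have hI' : 0 < (2 * ((r : ℝ) + 1)) ^ (r + 1) * pI r 1 CP Y0 a1 L l ^ (r + 1) := by positivity
    rw [← div_eq_mul_inv, lt_div_iff₀ hI']
    rw [mul_div_assoc', div_lt_one hc₃] at h2
    linarith
  · rw [hQρ, mul_one_div, sub_nonneg, le_div_iff₀ (by linarith), one_mul]
    refine le_trans ?_ hta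
    have h1 : (3 : ℝ) ≤ a1 := by
      have : 0 ≤ ((r : ℝ) + 2) * (Real.log (a1 + 1) + 2) := by positivity
      have h2 : 0 ≤ 4 * ((r : ℝ) + 1) * (1 + B) := by positivity
      linarith
    nlinarith
  · -- the inequality
    intro R d0 r0 hr0 hd0 hR
    rw [hQρ]
    have hZa : 0 ≤ 1 / (2 * ((r : ℝ) + 1) * Q) / lam := by positivity
    refine nug_ineq r (pS r a1 L) (pT a1 L) d L a1 B lam _ (Real.log (a1 + 1) + 2) hL1 ht1 rfl hta
      hd hld hW0 hlt hB hdl0.le hdl ?_ (Real.log_nonneg (by linarith)) (by rw [hρ1]; exact hQinv)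
      hρ0.le ha1' R d0 r0 hr0 hd0 hR
    refine Real.log_le_log (by linarith) ?_
    have h1 : 1 / (2 * ((r : ℝ) + 1) * Q) / lam ≤ d / lam :=
      div_le_div_of_nonneg_right (hρle.trans hdr) hlam.le
    linarith

end Pool.Agent.H35.GG
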